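import Pool.Agent.H2.AC.Iter

/-! The number of pairs of vectors for a circuit on random inputs. -/

set_option autoImplicit false
set_option maxHeartbeats 4000000

namespace Pool.Agent.H2.AC

open Pool.Agent.H58.OVAC Pool.Agent.H58.OVPR Pool.Agent.H58.OVT Pool.Agent.H58.CD Pool.Agent.H58.CE

theorem blk_flip {K : Type} (x σ : K → Bool) (j : K) :
    (fun κ => xor (Pool.Agent.H58.OVPR.flip x j κ) (σ κ)) =
      Pool.Agent.H58.OVPR.flip (fun κ => xor (x κ) (σ κ)) j := by
  classical
  funext κ
  unfold Pool.Agent.H58.OVPR.flip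
  by_cases h : κ = j
  · subst h
    rw [Function.update_self, Function.update_self]
    show (!x κ ^^ σ κ) = !(x κ ^^ σ κ)
    cases x κ <;> cases σ κ <;> rfl
  · rw [Function.update_of_ne h, Function.update_of_ne h]

theorem blk_zero {K : Type} (σ : K → Bool) :
    (fun κ => xor ((fun _ : K => false) κ) (σ κ)) = σ := by
  funext κ
  exact Bool.false_xor _

theorem blk_pf {K Y Γ : Type} [Fintype K] (S : Finset Γ) (f : (K → Bool) → Γ → Y)
    (σ : K → Bool) :
    pf S (fun g ρ => f (fun κ => xor (ρ κ) (σ κ)) g) (fun _ => false) =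
      pf S (fun g ρ => f ρ g) σ := by
  unfold pf
  congr 1
  ext q
  rw [mem_bf, mem_bf, blk_flip, blk_flip, blk_flip, blk_flip, blk_zero]

theorem blk_aux {V K X Y : Type} [Fintype V] [DecidableEq V] [Fintype K] [DecidableEq K]
    [Fintype X] [Nonempty X] (blk : V → K) (F : Finset V) (u : (V → X) → Y)
    (Q : ((K → Bool) → Y) → (K → Bool) → Prop)
    (hQ : ∀ f σ, Q (fun ρ => f (fun κ => xor (ρ κ) (σ κ))) (fun _ => false) ↔ Q f σ) {δ : ℝ}
    (h : ∀ y y' : V → X, pr (fun σ : K → Bool => Q (fun ρ => u (bpt blk F y y' ρ)) σ) ≤ δ) :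
    (av fun y : V → X => pr fun y' : V → X =>
      Q (fun ρ : K → Bool => u (bpt blk F y y' ρ)) (fun _ => false)) ≤ δ := by
  classical
  have h2 : ∀ σ : K → Bool, (av fun a : V → X => pr fun b : V → X =>
      Q (fun ρ => u (bpt blk F a b ρ)) (fun _ => false)) =
      av fun a : V → X => pr fun b : V → X => Q (fun ρ => u (bpt blk F b a ρ)) σ := by
    intro σ
    have h3 := av_mix₂ (Finset.univ.filter fun p => p ∉ F ∧ σ (blk p) = true)
      (fun a b : V → X => if Q (fun ρ => u (bpt blk F a b ρ)) (fun _ => false)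
        then (1 : ℝ) else 0)
    unfold pr
    refine (Eq.trans ?_ h3.symm).trans ?_
    · exact av_congr fun a => av_congr fun b => by congr
    · refine av_congr fun a => av_congr fun b => ?_
      have h4 : (fun ρ : K → Bool => u (bpt blk F
          (mix (Finset.univ.filter fun p => p ∉ F ∧ σ (blk p) = true) a b)
          (mix (Finset.univ.filter fun p => p ∉ F ∧ σ (blk p) = true) b a) ρ)) =
          fun ρ => (fun ρ => u (bpt blk F b a ρ)) (fun κ => xor (ρ κ) (σ κ)) := by
        funext ρ
        show _ = u (bpt blk F b a (fun κ => xor (ρ κ) (σ κ)))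
        congr 1
        funext p
        unfold bpt mix
        by_cases hF : p ∈ F
        · simp [hF]
        · cases hσ : σ (blk p) <;> cases hρ : ρ (blk p) <;> simp [hF, hσ, hρ]
      rw [h4]
      by_cases h5 : Q (fun ρ => u (bpt blk F b a ρ)) σ
      · rw [if_pos ((hQ _ _).2 h5), if_pos h5]
      · rw [if_neg (fun h6 => h5 ((hQ _ _).1 h6)), if_neg h5]
  have h4 : (av fun a : V → X => pr fun b : V → X =>
      Q (fun ρ => u (bpt blk F a b ρ)) (fun _ => false)) =
      av fun a : V → X => av fun b : V → X => pr fun σ : K → Bool =>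
        Q (fun ρ => u (bpt blk F b a ρ)) σ := by
    calc _ = av fun _ : K → Bool => (av fun a : V → X => pr fun b : V → X =>
            Q (fun ρ => u (bpt blk F a b ρ)) (fun _ => false)) := (av_const _).symm
      _ = av fun σ : K → Bool => av fun a : V → X => pr fun b : V → X =>
            Q (fun ρ => u (bpt blk F b a ρ)) σ := av_congr h2
      _ = _ := by
          rw [av_comm]
          refine av_congr fun a => ?_
          unfold pr
          rw [av_comm]
  rw [h4]
  exact av_le fun a => av_le fun b => h b a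

theorem blk_dt {V K X : Type} [DecidableEq V] [DecidableEq K] {f : (V → X) → Bool}
    (hf : DepOne f) (blk : V → K) (F : Finset V) (y y' : V → X) :
    Dt 1 fun ρ : K → Bool => f (bpt blk F y y' ρ) := by
  obtain ⟨P, h1, h2⟩ := hf
  refine dt_of_isJunta_one ⟨P.image blk, Finset.card_image_le.trans h1, fun ρ ρ' h => h2 _ _ ?_⟩
  intro p hp
  unfold bpt
  rw [h (blk p) (Finset.mem_image_of_mem _ hp)]

/-- The pairs of blocks on whose square at `y`, with the new values `y'`, some gate of `S` depends
on both moves. -/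
theorem net_pf_blk {ι V κ X : Type} [Fintype ι] [Fintype V] [DecidableEq V] [Fintype κ]
    [DecidableEq κ] [Fintype X] [Nonempty X] {s T l K : ℕ} (hl : 1 ≤ l) (hs : s ≤ 2 ^ (l + 1))
    (S : Finset (Fin s)) (N : Net ι (V → X) s T) (hin : ∀ i, DepOne (N.inp i)) (blk : V → κ)
    (F : Finset V) :
    (av fun y : V → X => pr fun y' : V → X => pfB l T 0 K (Fintype.card κ) S.card <
      pf S (fun g (ρ : κ → Bool) => N.first g (bpt blk F y y' ρ)) (fun _ => false)) ≤
      pfD l T K := by
  classical
  exact blk_aux blk F (fun x g => N.first g x)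
    (fun f σ => pfB l T 0 K (Fintype.card κ) S.card < pf S (fun g ρ => f ρ g) σ)
    (fun f σ => by rw [blk_pf S f σ])
    fun y y' => net_pf_zero hl hs S (N.comp (bpt blk F y y')) fun i => blk_dt (hin i) blk F y y'

/-! ### Pairs of vectors -/

section

variable {n D : ℕ} {X : Type}

/-- Replace the vector at the position `p`. -/
def rep (y y' : Co n D → X) (p : Bool × Fin n) : Co n D → X :=
  fun c => if c.1 = p then y' c else y c

open Classical in
/-- The pairs of a vector of `A` and a vector of `B` such that some gate of `S` depends on both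
replacements. -/
noncomputable def bpr {ι : Type} [Fintype ι] {s T : ℕ} (N : Net ι (Co n D → X) s T)
    (S : Finset (Fin s)) (y y' : Co n D → X) : Finset (Fin n × Fin n) :=
  Finset.univ.filter fun q : Fin n × Fin n => ∃ g ∈ S, ¬ Uni (N.first g) y (rep y y' (false, q.1))
    (rep y y' (true, q.2)) (rep (rep y y' (false, q.1)) y' (true, q.2))

theorem flip_self {K : Type} (ρ : K → Bool) (p : K) : Pool.Agent.H58.OVPR.flip ρ p p = !ρ p := by
  simp [Pool.Agent.H58.OVPR.flip]

theorem flip_ne {K : Type} (ρ : K → Bool) {p q : K} (h : q ≠ p) :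
    Pool.Agent.H58.OVPR.flip ρ p q = ρ q := by
  simp [Pool.Agent.H58.OVPR.flip, h]

theorem bpt_fst (y y' : Co n D → X) (ρ : Bool × Fin n → Bool) (p : Bool × Fin n)
    (hp : ρ p = false) :
    bpt (fun c : Co n D => c.1) ∅ y y' (Pool.Agent.H58.OVPR.flip ρ p) =
      rep (bpt (fun c : Co n D => c.1) ∅ y y' ρ) y' p := by
  have e1 : ∀ (ρ' : Bool × Fin n → Bool) (c : Co n D),
      bpt (fun c : Co n D => c.1) ∅ y y' ρ' c = if ρ' c.1 = true then y' c else y c := by
    intro ρ' c
    unfold bpt
    exact if_neg (Finset.notMem_empty c)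
  funext c
  unfold rep
  rw [e1, e1]
  by_cases h : c.1 = p
  · rw [if_pos h, h, flip_self, hp, if_pos (by rfl)]
  · rw [if_neg h, flip_ne ρ h]

theorem bpt_zero (y y' : Co n D → X) :
    bpt (fun c : Co n D => c.1) ∅ y y' (fun _ => false) = y := by
  funext c
  unfold bpt
  simp

/-- **The number of pairs of vectors.** -/
theorem net_bpr {ι : Type} [Fintype ι] [Fintype X] [Nonempty X] {s T l K : ℕ} (hl : 1 ≤ l)
    (hs : s ≤ 2 ^ (l + 1)) (S : Finset (Fin s)) (N : Net ι (Co n D → X) s T)
    (hin : ∀ i, DepOne (N.inp i)) :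
    (av fun y : Co n D → X => pr fun y' : Co n D → X =>
      pfB l T 0 K (2 * n) S.card < (bpr N S y y').card) ≤ pfD l T K := by
  classical
  have h1 := net_pf_blk (K := K) hl hs S N hin (fun c : Co n D => c.1) ∅
  have h2 : Fintype.card (Bool × Fin n) = 2 * n := by
    rw [Fintype.card_prod, Fintype.card_bool, Fintype.card_fin]
  rw [h2] at h1
  refine le_trans (av_mono fun y => pr_mono fun y' hy => lt_of_lt_of_le hy ?_) h1
  unfold pf
  refine Finset.card_le_card_of_injOn (fun q : Fin n × Fin n => ((false, q.1), (true, q.2))) ?_ ?_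
  · intro q hq
    have hq' : q ∈ bpr N S y y' := hq
    unfold bpr at hq'
    obtain ⟨-, g, hg, h3⟩ := Finset.mem_filter.1 hq'
    refine (mem_bf _ _ _ _).2 ⟨fun h => by simpa using congrArg Prod.fst h, g, hg, ?_⟩
    have e1 : Pool.Agent.H58.OVPR.flip (fun _ : Bool × Fin n => false) (false, q.1) (true, q.2) =
        false := flip_ne _ (by simp)
    rw [bpt_fst y y' _ _ e1, bpt_fst y y' _ _ rfl, bpt_fst y y' _ _ rfl, bpt_zero]
    exact h3
  · intro q _ q' _ h
    have h3 := congrArg (fun z : (Bool × Fin n) × (Bool × Fin n) => z.1.2) h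
    have h4 := congrArg (fun z : (Bool × Fin n) × (Bool × Fin n) => z.2.2) h
    exact Prod.ext h3 h4

end

end Pool.Agent.H2.AC
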