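import Pool.Agent.H2.AC.Iter

/-! Composition of random restrictions, and `T` layers with one colouring. -/

set_option autoImplicit false
set_option maxHeartbeats 4000000

namespace Pool.Agent.H2.AC

open Pool.Agent.H58.OVAC Pool.Agent.H58.OVPR Pool.Agent.H58.OVT Pool.Agent.H58.CD

section col

variable {V : Type}

/-- the bit of the composed colouring -/
private def colE {N Q' Q : ℕ} (e : Fin Q ≃ Fin N × Fin Q') (j : Fin Q) :
    (Fin Q × Bool) × Bool ≃ (Fin N × Bool) × (Fin Q' × Bool) where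
  toFun x := if (e x.1.1).1 = (e j).1 then (((e x.1.1).1, x.2), ((e x.1.1).2, x.1.2)) else
    (((e x.1.1).1, x.1.2), ((e x.1.1).2, x.2))
  invFun y := if y.1.1 = (e j).1 then ((e.symm (y.1.1, y.2.1), y.2.2), y.1.2) else
    ((e.symm (y.1.1, y.2.1), y.1.2), y.2.2)
  left_inv := by
    rintro ⟨⟨c, b⟩, b'⟩
    by_cases h : (e c).1 = (e j).1
    · simp [h]
      rw [← h]
      simp
    · simp [h]
  right_inv := by
    rintro ⟨⟨c, b⟩, ⟨c', b'⟩⟩
    by_cases h : c = (e j).1
    · simp [h]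
    · simp [h]

/-- the map of the restriction -/
def rmap {N : ℕ} (ω : V → Fin N × Bool) (j : Fin N) (σ : V → Bool) : V → Bool :=
  fun i => if (ω i).1 = j then σ i else (ω i).2

theorem restr_eq {Y : Type} {N : ℕ} (ω : V → Fin N × Bool) (j : Fin N) (f : (V → Bool) → Y) :
    restr ω j f = fun σ => f (rmap ω j σ) := rfl

theorem pr_fst {Ω Ω' : Type} [Fintype Ω] [Fintype Ω'] [Nonempty Ω'] (s : Ω → Prop) :
    pr (fun z : Ω × Ω' => s z.1) = pr s := by
  classical
  rw [pr_prod (fun a (_ : Ω') => s a)]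
  unfold pr
  exact av_congr fun a => av_const _

/-- **Composition of colourings.** -/
theorem pr_col [Fintype V] [DecidableEq V] {N Q' Q : ℕ} (e : Fin Q ≃ Fin N × Fin Q') (j : Fin Q)
    (P : ((V → Bool) → V → Bool) → Prop) :
    pr (fun ω : V → Fin Q × Bool => P (rmap ω j)) =
      av fun ω : V → Fin N × Bool => pr fun ω' : V → Fin Q' × Bool =>
        P fun σ => rmap ω (e j).1 (rmap ω' (e j).2 σ) := by
  classical
  rw [← pr_prod (fun (ω : V → Fin N × Bool) (ω' : V → Fin Q' × Bool) =>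
        P fun σ => rmap ω (e j).1 (rmap ω' (e j).2 σ))]
  rw [← pr_fst (Ω' := V → Bool) (fun ω : V → Fin Q × Bool => P (rmap ω j))]
  rw [← pr_equiv (Equiv.arrowProdEquivProdArrow V (fun _ => Fin N × Bool) (fun _ => Fin Q' × Bool))]
  rw [← pr_equiv (Equiv.arrowProdEquivProdArrow V (fun _ => Fin Q × Bool) (fun _ => Bool))]
  rw [← pr_equiv (Equiv.arrowCongr (Equiv.refl V) (colE e j))]
  refine pr_congr fun x => ?_
  have h : rmap ((Equiv.arrowProdEquivProdArrow V (fun _ => Fin Q × Bool) (fun _ => Bool)) x).1 j =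
      fun σ => rmap ((Equiv.arrowProdEquivProdArrow V (fun _ => Fin N × Bool)
        (fun _ => Fin Q' × Bool)) ((Equiv.arrowCongr (Equiv.refl V) (colE e j)) x)).1 (e j).1
        (rmap ((Equiv.arrowProdEquivProdArrow V (fun _ => Fin N × Bool)
        (fun _ => Fin Q' × Bool)) ((Equiv.arrowCongr (Equiv.refl V) (colE e j)) x)).2 (e j).2 σ) := by
    funext σ i
    unfold rmap
    have e1 : ((Equiv.arrowProdEquivProdArrow V (fun _ => Fin Q × Bool) (fun _ => Bool)) x).1 i =
      (x i).1 := rfl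
    have e2 : ((Equiv.arrowProdEquivProdArrow V (fun _ => Fin N × Bool)
        (fun _ => Fin Q' × Bool)) ((Equiv.arrowCongr (Equiv.refl V) (colE e j)) x)).1 i =
      (colE e j (x i)).1 := rfl
    have e3 : ((Equiv.arrowProdEquivProdArrow V (fun _ => Fin N × Bool)
        (fun _ => Fin Q' × Bool)) ((Equiv.arrowCongr (Equiv.refl V) (colE e j)) x)).2 i =
      (colE e j (x i)).2 := rfl
    simp only [e1, e2, e3]
    obtain ⟨⟨⟨c, b⟩, b'⟩, hx⟩ : ∃ y : (Fin Q × Bool) × Bool, y = x i := ⟨_, rfl⟩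
    rw [← hx]
    have key : c = j ↔ (e c).1 = (e j).1 ∧ (e c).2 = (e j).2 := by
      rw [← Prod.ext_iff, e.apply_eq_iff_eq]
    show (if c = j then σ i else b) = _
    by_cases h1 : (e c).1 = (e j).1
    · have e4 : colE e j ((c, b), b') = (((e c).1, b'), ((e c).2, b)) := by
        show (if (e c).1 = (e j).1 then _ else _) = _
        rw [if_pos h1]
      rw [e4]
      show _ = if (e c).1 = (e j).1 then (if (e c).2 = (e j).2 then σ i else b) else b'
      rw [if_pos h1]
      by_cases h2 : (e c).2 = (e j).2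
      · rw [if_pos h2, if_pos (key.2 ⟨h1, h2⟩)]
      · rw [if_neg h2, if_neg fun hc => h2 (key.1 hc).2]
    · have e4 : colE e j ((c, b), b') = (((e c).1, b), ((e c).2, b')) := by
        show (if (e c).1 = (e j).1 then _ else _) = _
        rw [if_neg h1]
      rw [e4]
      show _ = if (e c).1 = (e j).1 then (if (e c).2 = (e j).2 then σ i else b') else b
      rw [if_neg h1, if_neg fun hc => h1 (key.1 hc).1]
  rw [h]

end col

theorem numN {l N : ℕ} (hl : 1 ≤ l) (hN : 64 * l ≤ N) :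
    (1 + 4 * (2 / ((N : ℝ) - 1)) / (1 / 4)) ^ l ≤ 2 := by
  refine le_trans ?_ (numc hl)
  have h1 : (1 : ℝ) ≤ l := by exact_mod_cast hl
  have h2 : ((64 * l : ℕ) : ℝ) ≤ N := by exact_mod_cast hN
  have h3 : (64 : ℝ) * l = ((64 * l : ℕ) : ℝ) := by push_cast; ring
  have h4 : 0 < ((64 * l : ℕ) : ℝ) - 1 := by linarith
  have h5 : 2 / ((N : ℝ) - 1) ≤ 2 / (((64 * l : ℕ) : ℝ) - 1) :=
    div_le_div_of_nonneg_left (by norm_num) h4 (by linarith)
  have h6 : 0 ≤ 2 / ((N : ℝ) - 1) := div_nonneg (by norm_num) (by linarith)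
  apply pow_le_pow_left₀
  · have : 0 ≤ 4 * (2 / ((N : ℝ) - 1)) / (1 / 4) := by positivity
    linarith
  · have : 4 * (2 / ((N : ℝ) - 1)) / (1 / 4) ≤ 4 * (2 / (((64 * l : ℕ) : ℝ) - 1)) / (1 / 4) := by
      apply div_le_div_of_nonneg_right _ (by norm_num)
      linarith
    linarith

/-- `r` layers are left. -/
theorem iter_aux {ι V : Type} [Fintype ι] [Fintype V] [DecidableEq V] {s T l m N : ℕ} (hl : 1 ≤ l)
    (hN : 64 * l ≤ N) (hs : s ≤ 2 ^ (l + 1)) (r : ℕ) :
    ∀ (t M : ℕ) (Nt : Net ι (V → Bool) s T), t + r = T → (∀ i, Dt l (Nt.inp i)) →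
      Pd l M (lay Nt t) → ∀ j : Fin (N ^ r),
      pr (fun ω : V → Fin (N ^ r) × Bool =>
        ¬ Pd l (2 ^ r * M + (2 ^ r - 1) * m) fun g : Fin s => restr ω j (Nt.first g)) ≤
        r / 2 ^ m := by
  classical
  induction r with
  | zero =>
    intro t M Nt ht hin hM j
    have ht' : t = T := by omega
    subst ht'
    rw [lay_top] at hM
    rw [pr_eq_zero]
    · simp
    · intro ω hω
      apply hω
      have h1 : restr ω j = fun (f : (V → Bool) → Option ((ι ⊕ Fin s) × Bool)) => f := by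
        funext f σ
        unfold Pool.Agent.H58.OVAC.restr
        congr 1
        funext i
        have h2 : (ω i).1 = j := by
          have h3 : Subsingleton (Fin (N ^ 0)) := by
            rw [pow_zero]
            infer_instance
          exact Subsingleton.elim _ _
        rw [if_pos h2]
      rw [h1]
      exact hM.mono (by simp)
  | succ r ih =>
    intro t M Nt ht hin hM j
    have hN2 : 2 ≤ N := by omega
    obtain ⟨e⟩ : Nonempty (Fin (N ^ (r + 1)) ≃ Fin N × Fin (N ^ r)) :=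
      ⟨Fintype.equivOfCardEq (by
        rw [Fintype.card_prod, Fintype.card_fin, Fintype.card_fin, Fintype.card_fin, pow_succ,
          mul_comm])⟩
    have h0 := pr_col e j (fun φ : (V → Bool) → V → Bool =>
      ¬ Pd l (2 ^ (r + 1) * M + (2 ^ (r + 1) - 1) * m) fun g : Fin s => fun σ => Nt.first g (φ σ))
    have h0' : pr (fun ω : V → Fin (N ^ (r + 1)) × Bool =>
        ¬ Pd l (2 ^ (r + 1) * M + (2 ^ (r + 1) - 1) * m) fun g : Fin s =>
          restr ω j (Nt.first g)) = pr (fun ω : V → Fin (N ^ (r + 1)) × Bool =>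
        ¬ Pd l (2 ^ (r + 1) * M + (2 ^ (r + 1) - 1) * m) fun g : Fin s => fun σ =>
          Nt.first g (rmap ω j σ)) := rfl
    rw [h0', h0]
    have hne : Nonempty (Fin N × Bool) := ⟨((e j).1, true)⟩
    have h1 := round (V := V) (Γ := Fin s) (Δ := Fin s) (m := M + m) (e j).1 hN2 (α := 1 / 4)
      (by norm_num) (by norm_num) (numN hl hN) (by rw [Fintype.card_fin]; exact hs) M Nt.inp
      (lay Nt t) (lay Nt (t + 1)) (by
        intro φ hφ' hφ d
        exact lay_list (Nt.comp φ) (l := l) hφ' t hφ d) hin hM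
    have h2 : pr (fun ω : V → Fin N × Bool =>
        ¬ Pd l (M + (M + m)) fun d => restr ω (e j).1 (lay Nt (t + 1) d)) ≤ 1 / 2 ^ m := by
      refine h1.trans (le_of_le_of_eq (b := (2 : ℝ) ^ M * (1 / 2) ^ (M + m)) ?_ ?_)
      · apply mul_le_mul_of_nonneg_left _ (by positivity)
        have e1 : (2 * (1 / 4) : ℝ) = 1 / 2 := by norm_num
        rw [e1]
        exact pow_le_pow_of_le_one (by norm_num) (by norm_num) (Nat.le_succ _)
      · rw [pow_add, ← mul_assoc, ← mul_pow]
        norm_num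
        rw [one_div, inv_pow]
    have hdep : 2 ^ r * (2 * M + m) + (2 ^ r - 1) * m ≤ 2 ^ (r + 1) * M + (2 ^ (r + 1) - 1) * m := by
      obtain ⟨q, hq⟩ : ∃ q, 2 ^ r = q + 1 := ⟨2 ^ r - 1, by have := Nat.one_le_two_pow (n := r); omega⟩
      have hq2 : 2 ^ (r + 1) = 2 * (q + 1) := by rw [pow_succ, hq, mul_comm]
      have e1 : 2 ^ r - 1 = q := by omega
      have e2 : 2 ^ (r + 1) - 1 = 2 * q + 1 := by omega
      rw [e1, e2, hq, hq2]
      apply le_of_eq
      ring
    have h3 : ∀ ω : V → Fin N × Bool,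
        (pr fun ω' : V → Fin (N ^ r) × Bool =>
          ¬ Pd l (2 ^ (r + 1) * M + (2 ^ (r + 1) - 1) * m) fun g : Fin s => fun σ =>
            Nt.first g (rmap ω (e j).1 (rmap ω' (e j).2 σ))) ≤
        r / 2 ^ m + (if ¬ Pd l (M + (M + m)) (fun d => restr ω (e j).1 (lay Nt (t + 1) d)) then
          (1 : ℝ) else 0) := by
      intro ω
      by_cases hω : Pd l (M + (M + m)) fun d => restr ω (e j).1 (lay Nt (t + 1) d)
      · rw [if_neg (not_not.2 hω), add_zero]
        have h4 : M + (M + m) = 2 * M + m := by ring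
        rw [h4] at hω
        have h5 := ih (t + 1) (2 * M + m) (Nt.comp (rmap ω (e j).1)) (by omega)
          (fun i => (hin i).restr ω (e j).1) hω (e j).2
        refine le_trans (pr_mono fun ω' hω' => ?_) h5
        intro h6
        exact hω' (h6.mono hdep)
      · rw [if_pos hω]
        have h4 : (0 : ℝ) ≤ r / 2 ^ m := by positivity
        have h5 := pr_le_one (fun ω' : V → Fin (N ^ r) × Bool =>
          ¬ Pd l (2 ^ (r + 1) * M + (2 ^ (r + 1) - 1) * m) fun g : Fin s => fun σ =>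
            Nt.first g (rmap ω (e j).1 (rmap ω' (e j).2 σ)))
        linarith
    refine (av_mono h3).trans ?_
    rw [av_add, av_const]
    have h6 : (av fun ω : V → Fin N × Bool =>
        (if ¬ Pd l (M + (M + m)) (fun d => restr ω (e j).1 (lay Nt (t + 1) d)) then
          (1 : ℝ) else 0)) ≤ 1 / 2 ^ m := by
      refine le_trans (le_of_eq ?_) h2
      unfold pr
      exact av_congr fun ω => by congr
    calc _ ≤ (r : ℝ) / 2 ^ m + 1 / 2 ^ m := add_le_add_right h6 _
      _ = ((r + 1 : ℕ) : ℝ) / 2 ^ m := by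
        push_cast
        ring

/-- **`T` layers with one colouring with `N ^ T` colours.** -/
theorem iter {ι V : Type} [Fintype ι] [Fintype V] [DecidableEq V] {s T l m N : ℕ}
    (Nt : Net ι (V → Bool) s T) (hin : ∀ i, Dt 1 (Nt.inp i)) (hl : 1 ≤ l) (hN : 64 * l ≤ N)
    (hs : s ≤ 2 ^ (l + 1)) (j : Fin (N ^ T)) :
    pr (fun ω : V → Fin (N ^ T) × Bool =>
      ¬ Pd l (2 ^ T * m) fun g : Fin s => restr ω j (Nt.first g)) ≤ T / 2 ^ m := by
  have h0 : Pd l 0 (lay Nt 0) := by
    intro g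
    refine Dt.of_const fun σ τ => ?_
    unfold lay
    rw [if_neg (Nat.not_lt_zero _), if_neg (Nat.not_lt_zero _)]
  refine le_trans (pr_mono fun ω hω => ?_) (iter_aux (m := m) hl hN hs T 0 0 Nt (Nat.zero_add T)
    (fun i => (hin i).mono hl) h0 j)
  intro h1
  refine hω (h1.mono ?_)
  rw [mul_zero, zero_add]
  exact Nat.mul_le_mul_right _ (Nat.sub_le _ _)

end Pool.Agent.H2.AC
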