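import Pool.Agent.H2.AC.Pd
import Pool.Agent.H58.CE.Cert
import Pool.Agent.H58.CE.Part

/-! The number of pairs of coordinates on whose square some function of a family depends on both
moves. -/

set_option autoImplicit false
set_option maxHeartbeats 4000000

namespace Pool.Agent.H2.AC

open Pool.Agent.H58.OVAC Pool.Agent.H58.OVPR Pool.Agent.H58.OVT Pool.Agent.H58.CD Pool.Agent.H58.CE

section

variable {V Y Γ : Type} [Fintype V]

open Classical in
/-- The pairs of coordinates on whose square at `σ` some function of the family depends on both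
moves. -/
noncomputable def bf (S : Finset Γ) (F : Γ → (V → Bool) → Y) (σ : V → Bool) : Finset (V × V) :=
  Finset.univ.filter fun q : V × V => q.1 ≠ q.2 ∧ ∃ g ∈ S, ¬ Uni4 (F g σ)
    (F g (Pool.Agent.H58.OVPR.flip σ q.1)) (F g (Pool.Agent.H58.OVPR.flip σ q.2))
    (F g (Pool.Agent.H58.OVPR.flip (Pool.Agent.H58.OVPR.flip σ q.1) q.2))

/-- Their number. -/
noncomputable def pf (S : Finset Γ) (F : Γ → (V → Bool) → Y) (σ : V → Bool) : ℕ := (bf S F σ).card

theorem mem_bf (S : Finset Γ) (F : Γ → (V → Bool) → Y) (σ : V → Bool) (q : V × V) :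
    q ∈ bf S F σ ↔ q.1 ≠ q.2 ∧ ∃ g ∈ S, ¬ Uni4 (F g σ)
    (F g (Pool.Agent.H58.OVPR.flip σ q.1)) (F g (Pool.Agent.H58.OVPR.flip σ q.2))
    (F g (Pool.Agent.H58.OVPR.flip (Pool.Agent.H58.OVPR.flip σ q.1) q.2)) := by
  classical
  unfold bf
  rw [Finset.mem_filter]
  exact ⟨fun h => h.2, fun h => ⟨Finset.mem_univ _, h⟩⟩

theorem pf_le_sum (S : Finset Γ) (F : Γ → (V → Bool) → Y) (σ : V → Bool) :
    pf S F σ ≤ ∑ g ∈ S, pc (F g) σ := by
  classical
  unfold pf
  refine (Finset.card_le_card (t := S.biUnion fun g => bf {g} F σ) ?_).trans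
    (Finset.card_biUnion_le.trans (Finset.sum_le_sum fun g _ => ?_))
  · intro q hq
    obtain ⟨h1, g, hg, h2⟩ := (mem_bf S F σ q).1 hq
    exact Finset.mem_biUnion.2 ⟨g, hg, (mem_bf _ F σ q).2 ⟨h1, g, Finset.mem_singleton_self g, h2⟩⟩
  · unfold pc
    refine Finset.card_le_card fun q hq => ?_
    obtain ⟨h1, g', hg', h2⟩ := (mem_bf _ F σ q).1 hq
    rw [Finset.mem_singleton.1 hg'] at h2
    exact Finset.mem_filter.2 ⟨Finset.mem_univ _, h1, h2⟩

theorem update_flip_of_ne [DecidableEq V] (σ : V → Bool) {i r : V} (h : r ≠ i) :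
    Function.update (Pool.Agent.H58.OVPR.flip σ r) i (σ i) = Pool.Agent.H58.OVPR.flip σ r := by
  funext k
  by_cases hk : k = i
  · subst hk
    have : k ≠ r := fun h' => h h'.symm
    simp [Pool.Agent.H58.OVPR.flip, this]
  · rw [Function.update_of_ne hk]

/-- The path of the common tree costs `2 |V|` pairs for each query, the leaves `3 l ^ 2` pairs for
each function. -/
theorem pf_of_pd [DecidableEq V] {l m : ℕ} (S : Finset Γ) (σ : V → Bool) :
    ∀ {F : Γ → (V → Bool) → Y} (_ : Pd l m F),
      pf S F σ ≤ 2 * m * Fintype.card V + 3 * l ^ 2 * S.card := by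
  classical
  have hall : ∀ {F : Γ → (V → Bool) → Y} (_ : ∀ g, Dt l (F g)), pf S F σ ≤ 3 * l ^ 2 * S.card := by
    intro F hF
    refine (pf_le_sum S F σ).trans ((Finset.sum_le_sum fun g _ => pc_le_of_dt (hF g) σ).trans ?_)
    rw [Finset.sum_const, smul_eq_mul, mul_comm]
  induction m with
  | zero =>
    intro F hF
    have := hall hF
    omega
  | succ m ih =>
    intro F hF
    rcases hF with hF | ⟨i, hi⟩
    · have := hall hF
      have h2 : 0 ≤ 2 * (m + 1) * Fintype.card V := Nat.zero_le _
      omega
    · have h1 := ih (hi (σ i))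
      have h2 : pf S F σ ≤ pf S (fun g τ => F g (Function.update τ i (σ i))) σ +
          2 * Fintype.card V := by
        have h3 : bf S F σ ⊆ bf S (fun g τ => F g (Function.update τ i (σ i))) σ ∪
            ((Finset.univ.image fun r : V => (i, r)) ∪ (Finset.univ.image fun r : V => (r, i))) := by
          intro q hq
          obtain ⟨h1, g, hg, h2⟩ := (mem_bf S F σ q).1 hq
          by_cases hq1 : q.1 = i
          · refine Finset.mem_union_right _ (Finset.mem_union_left _ (Finset.mem_image.2
              ⟨q.2, Finset.mem_univ _, ?_⟩))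
            rw [← hq1]
          · by_cases hq2 : q.2 = i
            · refine Finset.mem_union_right _ (Finset.mem_union_right _ (Finset.mem_image.2
                ⟨q.1, Finset.mem_univ _, ?_⟩))
              rw [← hq2]
            · refine Finset.mem_union_left _ ((mem_bf _ _ σ q).2 ⟨h1, g, hg, ?_⟩)
              have e1 : Function.update (Pool.Agent.H58.OVPR.flip
                  (Pool.Agent.H58.OVPR.flip σ q.1) q.2) i (σ i) =
                  Pool.Agent.H58.OVPR.flip (Pool.Agent.H58.OVPR.flip σ q.1) q.2 := by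
                have e2 : σ i = Pool.Agent.H58.OVPR.flip σ q.1 i := by
                  have : i ≠ q.1 := fun h => hq1 h.symm
                  simp [Pool.Agent.H58.OVPR.flip, this]
                rw [e2]
                exact update_flip_of_ne _ hq2
              show ¬ Uni4 (F g (Function.update σ i (σ i)))
                (F g (Function.update (Pool.Agent.H58.OVPR.flip σ q.1) i (σ i)))
                (F g (Function.update (Pool.Agent.H58.OVPR.flip σ q.2) i (σ i)))
                (F g (Function.update (Pool.Agent.H58.OVPR.flip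
                  (Pool.Agent.H58.OVPR.flip σ q.1) q.2) i (σ i)))
              rw [Function.update_eq_self, update_flip_of_ne σ hq1, update_flip_of_ne σ hq2, e1]
              exact h2
        unfold pf
        refine (Finset.card_le_card h3).trans ((Finset.card_union_le _ _).trans
          (Nat.add_le_add_left ((Finset.card_union_le _ _).trans ?_) _))
        have h4 : (Finset.univ.image fun r : V => (i, r)).card ≤ Fintype.card V :=
          Finset.card_image_le.trans (le_of_eq Finset.card_univ)
        have h5 : (Finset.univ.image fun r : V => (r, i)).card ≤ Fintype.card V :=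
          Finset.card_image_le.trans (le_of_eq Finset.card_univ)
        omega
      have h6 : 2 * (m + 1) * Fintype.card V = 2 * m * Fintype.card V + 2 * Fintype.card V := by ring
      omega

/-! ### The partition trick for families -/

open Classical in
/-- The number of pairs of colour `j`. -/
noncomputable def af {N : ℕ} (S : Finset Γ) (F : Γ → (V → Bool) → Y) (j : Fin N)
    (c : V → Fin N) (x : V → Bool) : ℕ :=
  ((bf S F x).filter fun q => c q.1 = j ∧ c q.2 = j).card

open Classical in
theorem flip_restr {V : Type} {N : ℕ} (ω : V → Fin N × Bool) (j : Fin N) (σ : V → Bool)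
    (i : V) (hi : (ω i).1 = j) :
    (fun k => if (ω k).1 = j then Pool.Agent.H58.OVPR.flip σ i k else (ω k).2) =
      Pool.Agent.H58.OVPR.flip (fun k => if (ω k).1 = j then σ k else (ω k).2) i := by
  funext k
  by_cases hk : k = i
  · subst hk
    simp [Pool.Agent.H58.OVPR.flip, hi]
  · simp [Pool.Agent.H58.OVPR.flip, hk]

open Classical in
theorem af_le {N : ℕ} (S : Finset Γ) (F : Γ → (V → Bool) → Y) (j : Fin N)
    (ω : V → Fin N × Bool) (σ : V → Bool) :
    af S F j (fun k => (ω k).1) (fun k => if (ω k).1 = j then σ k else (ω k).2) ≤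
      pf S (fun g => restr ω j (F g)) σ := by
  unfold af pf
  apply Finset.card_le_card
  intro q hq
  obtain ⟨h1, h2, h3⟩ := Finset.mem_filter.1 hq
  obtain ⟨h4, g, hg, h5⟩ := (mem_bf _ _ _ _).1 h1
  refine (mem_bf _ _ _ _).2 ⟨h4, g, hg, ?_⟩
  have e0 : ∀ τ : V → Bool, restr ω j (F g) τ =
      F g (fun k => if (ω k).1 = j then τ k else (ω k).2) := fun τ => rfl
  rw [e0, e0, e0, e0, flip_restr ω j _ _ h3, flip_restr ω j _ _ h2, flip_restr ω j _ _ h3,
    flip_restr ω j _ _ h2]
  exact h5

theorem pf_part [DecidableEq V] {N : ℕ} (hN : 1 ≤ N) (S : Finset Γ)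
    (F : Γ → (V → Bool) → Y) (P : ℕ) {δ : ℝ}
    (h : ∀ j : Fin N, (av fun ω : V → Fin N × Bool => pr fun σ : V → Bool =>
      P < pf S (fun g => restr ω j (F g)) σ) ≤ δ) :
    pr (fun σ : V → Bool => 2 * N ^ 2 * P < pf S F σ) ≤ 2 * N ^ 2 * δ := by
  classical
  have hNe : Nonempty (Fin N) := ⟨⟨0, by omega⟩⟩
  have hN0 : (0 : ℝ) < N := by exact_mod_cast (by omega : 0 < N)
  have hone : ∀ j : Fin N,
      (av fun c : V → Fin N => pr fun σ : V → Bool => P < af S F j c σ) ≤ δ := by
    intro j
    have h2 : (av fun c : V → Fin N => pr fun σ : V → Bool => P < af S F j c σ) =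
        av fun ω : V → Fin N × Bool => pr fun σ : V → Bool =>
          P < af S F j (fun k => (ω k).1) (fun k => if (ω k).1 = j then σ k else (ω k).2) := by
      have h3 := av_equiv (Equiv.arrowProdEquivProdArrow V (fun _ => Fin N) (fun _ => Bool))
        (fun z : (V → Fin N) × (V → Bool) => pr fun σ : V → Bool =>
          P < af S F j z.1 (fun k => if z.1 k = j then σ k else z.2 k))
      refine Eq.trans ?_ h3.symm
      rw [av_prod fun (c : V → Fin N) (σ0 : V → Bool) => pr fun σ : V → Bool =>
          P < af S F j c (fun k => if c k = j then σ k else σ0 k)]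
      apply av_congr
      intro c
      rw [← pr_mix (Finset.univ.filter fun k => c k ≠ j)]
      apply av_congr
      intro σ0
      apply pr_congr
      intro σ
      have : mix (Finset.univ.filter fun k => c k ≠ j) σ0 σ =
          fun k => if c k = j then σ k else σ0 k := by
        funext k
        unfold mix
        by_cases hk : c k = j <;> simp [hk]
      rw [this]
    rw [h2]
    refine le_trans (av_mono fun ω => pr_mono fun σ hσ => ?_) (h j)
    exact lt_of_lt_of_le hσ (af_le S F j ω σ)
  -- the sum over the colours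
  have hsum : ∀ (c : V → Fin N) (x : V → Bool), ∑ j : Fin N, af S F j c x =
      ((bf S F x).filter fun q => c q.1 = c q.2).card := by
    intro c x
    rw [Finset.card_eq_sum_card_fiberwise (f := fun q : V × V => c q.1) (t := Finset.univ)
      (fun _ _ => Finset.mem_univ _)]
    apply Finset.sum_congr rfl
    intro j _
    unfold af
    congr 1
    ext q
    simp only [Finset.mem_filter]
    constructor
    · rintro ⟨h1, h2, h3⟩
      exact ⟨⟨h1, by rw [h2, h3]⟩, h2⟩
    · rintro ⟨⟨h1, h2⟩, h3⟩
      exact ⟨h1, h3, by rw [← h2, h3]⟩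
  have hav : ∀ x : V → Bool, (av fun c : V → Fin N => ((∑ j : Fin N, af S F j c x : ℕ) : ℝ)) =
      (pf S F x : ℝ) * (1 / N) := by
    intro x
    have e1 : ∀ c : V → Fin N, ((∑ j : Fin N, af S F j c x : ℕ) : ℝ) =
        ∑ q ∈ bf S F x, if c q.1 = c q.2 then (1 : ℝ) else 0 := by
      intro c
      rw [hsum c x, Finset.card_filter]
      push_cast
      rfl
    rw [av_congr e1, av_sum]
    have e2 : ∀ q ∈ bf S F x, (av fun c : V → Fin N => if c q.1 = c q.2 then (1 : ℝ) else 0) =
        1 / N := by
      intro q hq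
      have h4 := ((mem_bf S F x q).1 hq).1
      have h5 := pr_eq_pair (X := Fin N) q.1 q.2 h4
      rw [Fintype.card_fin] at h5
      rw [← h5]
      unfold pr
      exact av_congr fun c => by congr
    rw [Finset.sum_congr rfl e2, Finset.sum_const, nsmul_eq_mul]
    rfl
  have hkey : ∀ x : V → Bool, 2 * N ^ 2 * P < pf S F x →
      1 / (2 * (N : ℝ)) ≤ pr fun c : V → Fin N => ∃ j ∈ (Finset.univ : Finset (Fin N)),
        P < af S F j c x := by
    intro x hx
    have hb : (0 : ℝ) < pf S F x := by exact_mod_cast (by omega : 0 < pf S F x)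
    have h1 : (pf S F x : ℝ) * (1 / N) ≤ N * P + pf S F x * pr fun c : V → Fin N =>
        ∃ j ∈ (Finset.univ : Finset (Fin N)), P < af S F j c x := by
      rw [← hav x]
      unfold pr
      rw [← av_mul_left]
      have h2 : ((N : ℝ) * P) = av fun _ : V → Fin N => ((N : ℝ) * P) := (av_const _).symm
      rw [h2, ← av_add]
      refine av_mono fun c => ?_
      by_cases hq : ∃ j ∈ (Finset.univ : Finset (Fin N)), P < af S F j c x
      · rw [if_pos hq]
        have h3 : ∑ j : Fin N, af S F j c x ≤ pf S F x := by
          rw [hsum c x]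
          exact Finset.card_le_card (Finset.filter_subset _ _)
        have h4 : ((∑ j : Fin N, af S F j c x : ℕ) : ℝ) ≤ pf S F x := by exact_mod_cast h3
        have h5 : (0 : ℝ) ≤ N * P := by positivity
        linarith
      · rw [if_neg hq]
        have h3 : ∑ j : Fin N, af S F j c x ≤ ∑ _j : Fin N, P := by
          refine Finset.sum_le_sum fun j hj => ?_
          by_contra hc
          exact hq ⟨j, hj, not_le.1 hc⟩
        rw [Finset.sum_const, Finset.card_univ, Fintype.card_fin, smul_eq_mul] at h3
        have h4 : ((∑ j : Fin N, af S F j c x : ℕ) : ℝ) ≤ ((N * P : ℕ) : ℝ) := by exact_mod_cast h3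
        push_cast at h4 ⊢
        linarith
    have h6 : (2 * (N : ℝ) ^ 2 * P) ≤ pf S F x := by exact_mod_cast hx.le
    set p := pr fun c : V → Fin N => ∃ j ∈ (Finset.univ : Finset (Fin N)), P < af S F j c x with hp
    have h7 : (N : ℝ) * P ≤ pf S F x * (1 / (2 * N)) := by
      rw [mul_one_div, le_div_iff₀ (by positivity)]
      nlinarith [h6]
    have h8 : (pf S F x : ℝ) * (1 / N) = pf S F x * (1 / (2 * N)) + pf S F x * (1 / (2 * N)) := by
      field_simp
      norm_num
    have h9 : (pf S F x : ℝ) * (1 / (2 * N)) ≤ pf S F x * p := by linarith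
    exact le_of_mul_le_mul_left h9 hb
  have h10 : pr (fun σ : V → Bool => 2 * N ^ 2 * P < pf S F σ) * (1 / (2 * (N : ℝ))) ≤
      av fun x : V → Bool => pr fun c : V → Fin N => ∃ j ∈ (Finset.univ : Finset (Fin N)),
        P < af S F j c x := by
    unfold pr
    rw [← av_mul_right]
    refine av_mono fun x => ?_
    by_cases hx : 2 * N ^ 2 * P < pf S F x
    · rw [if_pos hx, one_mul]
      exact hkey x hx
    · rw [if_neg hx, zero_mul]
      exact pr_nonneg _
  have h11 : (av fun x : V → Bool => pr fun c : V → Fin N => ∃ j ∈ (Finset.univ : Finset (Fin N)),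
      P < af S F j c x) ≤ N * δ := by
    calc (av fun x : V → Bool => pr fun c : V → Fin N => ∃ j ∈ (Finset.univ : Finset (Fin N)),
          P < af S F j c x)
        ≤ av fun x : V → Bool => ∑ j : Fin N, pr fun c : V → Fin N => P < af S F j c x :=
          av_mono fun x => pr_exists_le _ _
      _ = ∑ j : Fin N, av fun x : V → Bool => pr fun c : V → Fin N => P < af S F j c x :=
          av_sum _ _
      _ = ∑ j : Fin N, av fun c : V → Fin N => pr fun x : V → Bool => P < af S F j c x := by
          refine Finset.sum_congr rfl fun j _ => ?_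
          unfold pr
          exact av_comm _
      _ ≤ ∑ _j : Fin N, δ := Finset.sum_le_sum fun j _ => hone j
      _ = N * δ := by rw [Finset.sum_const, Finset.card_univ, Fintype.card_fin, nsmul_eq_mul]
  have h12 := h10.trans h11
  rw [mul_one_div, div_le_iff₀ (by positivity)] at h12
  calc pr (fun σ : V → Bool => 2 * N ^ 2 * P < pf S F σ) ≤ N * δ * (2 * N) := h12
    _ = 2 * N ^ 2 * δ := by ring

end

end Pool.Agent.H2.AC
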