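import Pool.Agent.H2.AC.Multi
import Pool.Agent.H2.AC.Pf
import Pool.Agent.H58.CD.First

/-! Circuits with many layers: a common decision tree for all gates after a sequence of random
restrictions, and the number of pairs of coordinates with a gate which depends on both moves. -/

set_option autoImplicit false
set_option maxHeartbeats 4000000

namespace Pool.Agent.H2.AC

open Pool.Agent.H58.OVAC Pool.Agent.H58.OVPR Pool.Agent.H58.OVT Pool.Agent.H58.CD Pool.Agent.H58.CE

/-! ### One round -/

section

variable {V Y Z Γ Δ ι : Type} [DecidableEq V] {N : ℕ}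

/-- Restriction and fixing a coordinate which is alive. -/
theorem restr_alive (ω : V → Fin N × Bool) (j : Fin N) (f : (V → Bool) → Z) (i : V)
    (hi : (ω i).1 = j) (b : Bool) :
    (fun σ => restr ω j f (Function.update σ i b)) =
      restr ω j fun σ => f (Function.update σ i b) := by
  funext σ
  unfold Pool.Agent.H58.OVAC.restr
  congr 1
  funext k
  by_cases hk : k = i
  · subst hk
    simp [hi]
  · simp [Function.update_of_ne hk]

/-- Restriction and fixing a coordinate which is not alive. -/
theorem restr_dead (ω : V → Fin N × Bool) (j : Fin N) (f : (V → Bool) → Z) (i : V)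
    (hi : (ω i).1 ≠ j) :
    restr ω j f = restr ω j fun σ => f (Function.update σ i (ω i).2) := by
  funext σ
  unfold Pool.Agent.H58.OVAC.restr
  congr 1
  funext k
  by_cases hk : k = i
  · subst hk
    simp [hi]
  · simp [Function.update_of_ne hk]

theorem pd_node {l m : ℕ} (ω : V → Fin N × Bool) (j : Fin N) (H : Δ → (V → Bool) → Z) (i : V)
    (h : ∀ b : Bool, Pd l m fun d => restr ω j fun σ => H d (Function.update σ i b)) :
    Pd l (m + 1) fun d => restr ω j (H d) := by
  by_cases hi : (ω i).1 = j
  · refine Or.inr ⟨i, fun b => ?_⟩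
    have h1 : (fun d σ => restr ω j (H d) (Function.update σ i b)) =
        fun d => restr ω j fun σ => H d (Function.update σ i b) :=
      funext fun d => restr_alive ω j (H d) i hi b
    rw [h1]
    exact h b
  · have h1 : (fun d => restr ω j (H d)) =
        fun d => restr ω j fun σ => H d (Function.update σ i (ω i).2) :=
      funext fun d => restr_dead ω j (H d) i hi
    rw [h1]
    exact (h _).succ

/-- One round: if the family `F` has a common tree of depth `M` and at its leaves the functions `H`
are decision lists of width `w`, then after a random restriction `H` has a common tree of depth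
`M + m`. -/
theorem round [Fintype V] [Fintype Δ] {w l m : ℕ} (j : Fin N) (hN : 2 ≤ N) {α : ℝ} (hα0 : 0 < α)
    (hα1 : 2 * α ≤ 1) (hw : (1 + 4 * (2 / ((N : ℝ) - 1)) / α) ^ w ≤ 2)
    (hΔ : Fintype.card Δ ≤ 2 ^ (l + 1)) (M : ℕ) :
    ∀ (I : ι → (V → Bool) → Bool) (F : Γ → (V → Bool) → Y) (H : Δ → (V → Bool) → Z),
      (∀ φ : (V → Bool) → (V → Bool), (∀ i, Dt l fun σ => I i (φ σ)) →
        (∀ g, Dt l fun σ => F g (φ σ)) →
        ∀ d, ∃ L : List (Item V Z), (∀ x ∈ L, x.1.1.card ≤ w) ∧
          ∀ z0 : Z, evalL L z0 = fun σ => H d (φ σ)) →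
      (∀ i, Dt l (I i)) → Pd l M F →
      pr (fun ω : V → Fin N × Bool => ¬ Pd l (M + m) fun d => restr ω j (H d)) ≤
        2 ^ M * (2 * α) ^ (m + 1) := by
  classical
  have hall : ∀ (I : ι → (V → Bool) → Bool) (F : Γ → (V → Bool) → Y) (H : Δ → (V → Bool) → Z),
      (∀ φ : (V → Bool) → (V → Bool), (∀ i, Dt l fun σ => I i (φ σ)) →
        (∀ g, Dt l fun σ => F g (φ σ)) →
        ∀ d, ∃ L : List (Item V Z), (∀ x ∈ L, x.1.1.card ≤ w) ∧
          ∀ z0 : Z, evalL L z0 = fun σ => H d (φ σ)) →
      (∀ i, Dt l (I i)) → (∀ g, Dt l (F g)) → ∀ M : ℕ,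
      pr (fun ω : V → Fin N × Bool => ¬ Pd l (M + m) fun d => restr ω j (H d)) ≤
        2 ^ M * (2 * α) ^ (m + 1) := by
    intro I F H hFH hI hF M
    choose L hL1 hL2 using hFH (fun σ => σ) hI hF
    have h1 := multi (Γ := Δ) (Y := Z) (V := V) j hN hα0 hα1 hw hΔ (m + 1) L
      (fun d => H d fun _ => false) hL1 (fun _ => True) (fun _ _ _ _ _ => trivial)
    have h2 : (fun ω : V → Fin N × Bool => ¬ Pd l (M + m) fun d => restr ω j (H d)) =
        fun ω => ¬ Pd l (M + m) fun d => restr ω j (evalL (L d) (H d fun _ => false)) := by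
      funext ω
      have h3 : (fun d => restr ω j (H d)) =
          fun d => restr ω j (evalL (L d) (H d fun _ => false)) := by
        funext d
        rw [hL2 d (H d fun _ => false)]
      rw [h3]
    have hne : Nonempty (Fin N × Bool) := ⟨(j, true)⟩
    have h4 : pr (fun ω : V → Fin N × Bool => True) ≤ 1 := pr_le_one _
    have h5 : 0 ≤ (2 * α) ^ (m + 1) := by positivity
    have h6 : (1 : ℝ) ≤ 2 ^ M := one_le_pow₀ (by norm_num)
    calc pr (fun ω : V → Fin N × Bool => ¬ Pd l (M + m) fun d => restr ω j (H d))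
        ≤ pr (fun ω : V → Fin N × Bool => True ∧
            ¬ Plt l (m + 1) fun d => restr ω j (evalL (L d) (H d fun _ => false))) := by
          rw [h2]
          refine pr_mono fun ω hω => ⟨trivial, fun h7 => hω ?_⟩
          exact Pd.mono (by omega) (h7 : Pd l m _)
      _ ≤ (2 * α) ^ (m + 1) * pr (fun ω : V → Fin N × Bool => True) := h1
      _ ≤ (2 * α) ^ (m + 1) * 1 := mul_le_mul_of_nonneg_left h4 h5
      _ ≤ 2 ^ M * (2 * α) ^ (m + 1) := by nlinarith
  induction M with
  | zero =>
    intro I F H hFH hI hF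
    exact hall I F H hFH hI hF 0
  | succ M ih =>
    intro I F H hFH hI hF
    rcases hF with hF | ⟨i, hi⟩
    · exact hall I F H hFH hI hF (M + 1)
    · have h1 : ∀ b ∈ (Finset.univ : Finset Bool), pr (fun ω : V → Fin N × Bool =>
          ¬ Pd l (M + m) fun d => restr ω j fun σ => H d (Function.update σ i b)) ≤
          2 ^ M * (2 * α) ^ (m + 1) := by
        intro b _
        refine ih (fun k σ => I k (Function.update σ i b)) (fun g σ => F g (Function.update σ i b))
          (fun d σ => H d (Function.update σ i b)) ?_ (fun k => (hI k).fix i b) (hi b)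
        intro φ hφ' hφ d
        exact hFH (fun σ => Function.update (φ σ) i b) hφ' hφ d
      have h2 : ∀ ω : V → Fin N × Bool, (¬ Pd l (M + 1 + m) fun d => restr ω j (H d)) →
          ∃ b ∈ (Finset.univ : Finset Bool),
            ¬ Pd l (M + m) fun d => restr ω j fun σ => H d (Function.update σ i b) := by
        intro ω hω
        by_contra hcon
        push Not at hcon
        apply hω
        have h3 : M + 1 + m = (M + m) + 1 := by omega
        rw [h3]
        exact pd_node ω j H i fun b => hcon b (Finset.mem_univ b)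
      refine (pr_mono h2).trans ((pr_exists_le _ _).trans ((Finset.sum_le_sum h1).trans
        (le_of_eq ?_)))
      rw [Finset.sum_const, Finset.card_univ, Fintype.card_bool, nsmul_eq_mul, pow_succ]
      push_cast
      ring

end

/-! ### The layers of a circuit -/

section

variable {ι V : Type} [Fintype ι] [DecidableEq V] {s T : ℕ}

/-- The first false literals of the gates in the first `t` layers. -/
noncomputable def lay {Ω : Type} (N : Net ι Ω s T) (t : ℕ) (g : Fin s) (x : Ω) :
    Option ((ι ⊕ Fin s) × Bool) :=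
  if (N.layer g : ℕ) < t then N.first g x else none

theorem lay_top {Ω : Type} (N : Net ι Ω s T) : lay N T = N.first := by
  funext g x
  unfold lay
  rw [if_pos (N.layer g).2]

theorem lay_comp {Ω Ω' : Type} (N : Net ι Ω s T) (ρ : Ω' → Ω) (t : ℕ) (g : Fin s) (x : Ω') :
    lay (N.comp ρ) t g x = lay N t g (ρ x) := rfl

/-- The gates of the next layer are decision lists. -/
theorem lay_list {l : ℕ} (N : Net ι (V → Bool) s T) (hin : ∀ i, Dt l (N.inp i)) (t : ℕ)
    (h : ∀ g, Dt l fun σ => lay N t g σ) (g : Fin s) :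
    ∃ L : List (Item V (Option ((ι ⊕ Fin s) × Bool))), (∀ x ∈ L, x.1.1.card ≤ l) ∧
      ∀ z0, evalL L z0 = lay N (t + 1) g := by
  classical
  by_cases hg : (N.layer g : ℕ) < t + 1
  · have hev : ∀ q ∈ N.lits g, Dt l (N.ev q.1) := by
      rintro ⟨z, b⟩ hq
      cases z with
      | inl i => exact hin i
      | inr k =>
        have h1 : (N.layer k : ℕ) < t := by
          have h2 : N.layer k < N.layer g := N.lower g _ hq k rfl
          have h3 : (N.layer k : ℕ) < N.layer g := h2
          omega
        have h2 := (h k).comp fun o => o.isNone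
        refine (congrArg (Dt l) ?_).mp h2
        funext σ
        show Option.isNone (lay N t k σ) = N.val k σ
        unfold lay
        rw [if_pos h1, Bool.eq_iff_iff, Option.isNone_iff_eq_none, N.first_eq_none_iff]
    obtain ⟨L, hL1, hL2⟩ := exists_list (w := l)
      (p := Fintype.card ((ι ⊕ Fin s) × Bool))
      (Y := Option ((ι ⊕ Fin s) × Bool))
      (fun k σ => if (Net.enum ι s).symm k ∈ N.lits g ∧
        N.ev ((Net.enum ι s).symm k).1 σ ≠ ((Net.enum ι s).symm k).2 then
          some (some ((Net.enum ι s).symm k)) else none)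
      (by
        intro k
        by_cases hk : (Net.enum ι s).symm k ∈ N.lits g
        · have h1 := (hev _ hk).comp fun b => if b ≠ ((Net.enum ι s).symm k).2 then
            some (some ((Net.enum ι s).symm k)) else none
          refine (congrArg (Dt l) ?_).mp h1
          funext σ
          by_cases h2 : N.ev ((Net.enum ι s).symm k).1 σ = ((Net.enum ι s).symm k).2
          · rw [if_neg (fun h3 => h3 h2), if_neg fun h3 => h3.2 h2]
          · rw [if_pos h2, if_pos ⟨hk, h2⟩]
        · refine Dt.of_const fun σ τ => ?_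
          rw [if_neg fun h3 => hk h3.1, if_neg fun h3 => hk h3.1])
      (fun _ => none) (Dt.of_const fun _ _ => rfl) (N.first g)
      (by
        intro σ
        cases hf : N.first g σ with
        | none =>
          left
          have hv := (N.first_eq_none_iff g σ).1 hf
          rw [N.val_iff] at hv
          refine ⟨fun k => if_neg fun h3 => h3.2 (hv _ h3.1), rfl⟩
        | some q =>
          right
          obtain ⟨⟨h1, h2⟩, h3⟩ := (first_eq_some_iff N g σ q).1 hf
          refine ⟨Net.enum ι s q, fun k hk => if_neg fun h4 => h4.2 (h3 _ h4.1 ?_), ?_⟩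
          · show (if (Net.enum ι s).symm (Net.enum ι s q) ∈ N.lits g ∧ _ then _ else _) = _
            rw [Equiv.symm_apply_apply, if_pos ⟨h1, h2⟩]
          · rw [Equiv.apply_symm_apply]
            exact hk)
    refine ⟨L, hL1, fun z0 => ?_⟩
    rw [hL2]
    funext σ
    unfold lay
    rw [if_pos hg]
  · refine ⟨[((∅, fun _ => false), none)], fun x hx => ?_, fun z0 => ?_⟩
    · rw [List.mem_singleton.1 hx]
      simp
    · funext σ
      rw [evalL_pos fun i hi => absurd hi (Finset.notMem_empty i)]
      unfold lay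
      rw [if_neg hg]

end

/-! ### The numbers -/

/-- The numerical condition for `64 l` colours. -/
theorem numc {l : ℕ} (hl : 1 ≤ l) :
    (1 + 4 * (2 / (((64 * l : ℕ) : ℝ) - 1)) / (1 / 4)) ^ l ≤ 2 := by
  have hl' : (1 : ℝ) ≤ l := by exact_mod_cast hl
  have h1 : (63 : ℝ) * l ≤ ((64 * l : ℕ) : ℝ) - 1 := by
    push_cast
    linarith
  have h2 : 4 * (2 / (((64 * l : ℕ) : ℝ) - 1)) / (1 / 4) ≤ 32 / (63 * l) := by
    have h3 : 4 * (2 / (((64 * l : ℕ) : ℝ) - 1)) / (1 / 4) = 32 / (((64 * l : ℕ) : ℝ) - 1) := by
      ring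
    rw [h3]
    apply div_le_div_of_nonneg_left (by norm_num) (by positivity) h1
  have h3 : (0 : ℝ) < ((64 * l : ℕ) : ℝ) - 1 := by linarith
  calc (1 + 4 * (2 / (((64 * l : ℕ) : ℝ) - 1)) / (1 / 4)) ^ l ≤ (1 + 32 / (63 * l)) ^ l := by
        apply pow_le_pow_left₀ (by positivity)
        linarith
    _ ≤ (Real.exp (32 / (63 * l))) ^ l := by
        apply pow_le_pow_left₀ (by positivity)
        have := Real.add_one_le_exp (32 / (63 * (l : ℝ)))
        linarith
    _ = Real.exp (32 / 63) := by
        rw [← Real.exp_nat_mul]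
        congr 1
        field_simp
    _ ≤ Real.exp (Real.log 2) := by
        apply Real.exp_le_exp.2
        have := Real.log_two_gt_d9
        linarith
    _ = 2 := Real.exp_log (by norm_num)

/-- The bound for the number of pairs. -/
def pfB (l r M K v c : ℕ) : ℕ :=
  (2 * (64 * l) ^ 2) ^ r * (2 * (2 ^ r * (M + K)) * v + 3 * l ^ 2 * c)

/-- The bound for the tail. -/
noncomputable def pfD (l r K : ℕ) : ℝ := r * (2 * ((64 * l : ℕ) : ℝ) ^ 2) ^ r / 2 ^ K

theorem pfB_succ (l r M K v c : ℕ) :
    pfB l (r + 1) M K v c = 2 * (64 * l) ^ 2 * pfB l r (2 * M + K) K v c := by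
  unfold pfB
  ring

theorem pfD_nonneg (l r K : ℕ) : 0 ≤ pfD l r K := by
  unfold pfD
  positivity

theorem pfD_succ {l : ℕ} (hl : 1 ≤ l) (r K : ℕ) :
    2 * ((64 * l : ℕ) : ℝ) ^ 2 * (pfD l r K + 1 / 2 ^ K) ≤ pfD l (r + 1) K := by
  unfold pfD
  have h0 : (1 : ℝ) ≤ ((64 * l : ℕ) : ℝ) := by exact_mod_cast (by omega : 1 ≤ 64 * l)
  obtain ⟨x, hx⟩ : ∃ x : ℝ, x = 2 * ((64 * l : ℕ) : ℝ) ^ 2 := ⟨_, rfl⟩
  rw [← hx]
  have h1 : 1 ≤ x := by
    rw [hx]
    nlinarith
  have h2 : (1 : ℝ) ≤ x ^ r := one_le_pow₀ h1
  rw [← add_div, ← mul_div_assoc]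
  apply div_le_div_of_nonneg_right _ (by positivity)
  push_cast
  calc x * (r * x ^ r + 1) ≤ x * (r * x ^ r + x ^ r) := by
        apply mul_le_mul_of_nonneg_left _ (by linarith)
        linarith
    _ = (r + 1) * x ^ (r + 1) := by ring

/-- **The number of pairs**, all gates of a circuit on a cube together. `t` layers are already
known to have a common tree of depth `M`, `r` layers are left. -/
theorem net_pf {ι V : Type} [Fintype ι] [Fintype V] [DecidableEq V] {s T l K : ℕ} (hl : 1 ≤ l)
    (hs : s ≤ 2 ^ (l + 1)) (S : Finset (Fin s)) (r : ℕ) :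
    ∀ (t M : ℕ) (N : Net ι (V → Bool) s T), t + r = T → (∀ i, Dt l (N.inp i)) →
      Pd l M (lay N t) →
      pr (fun σ : V → Bool => pfB l r M K (Fintype.card V) S.card < pf S N.first σ) ≤
        pfD l r K := by
  classical
  induction r with
  | zero =>
    intro t M N ht hin hM
    have ht' : t = T := by omega
    subst ht'
    rw [lay_top] at hM
    rw [pr_eq_zero]
    · exact pfD_nonneg _ _ _
    · intro σ hσ
      have h1 := pf_of_pd S σ hM
      unfold pfB at hσ
      rw [pow_zero, pow_zero, one_mul, one_mul] at hσ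
      have h2 : 2 * M * Fintype.card V ≤ 2 * (M + K) * Fintype.card V :=
        Nat.mul_le_mul_right _ (by omega)
      omega
  | succ r ih =>
    intro t M N ht hin hM
    have hN1 : 1 ≤ 64 * l := by omega
    have hN2 : 2 ≤ 64 * l := by omega
    rw [pfB_succ]
    refine (pf_part hN1 S N.first (pfB l r (2 * M + K) K (Fintype.card V) S.card)
      (δ := pfD l r K + 1 / 2 ^ K) ?_).trans (pfD_succ hl r K)
    intro j
    have hne : Nonempty (Fin (64 * l) × Bool) := ⟨(j, true)⟩
    have h1 := round (V := V) (Γ := Fin s) (Δ := Fin s) (m := M + K) j hN2 (α := 1 / 4)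
      (by norm_num) (by norm_num) (numc hl) (by rw [Fintype.card_fin]; exact hs) M N.inp (lay N t)
      (lay N (t + 1)) (by
        intro φ hφ' hφ d
        exact lay_list (N.comp φ) (l := l) hφ' t hφ d) hin hM
    have h2 : pr (fun ω : V → Fin (64 * l) × Bool =>
        ¬ Pd l (M + (M + K)) fun d => restr ω j (lay N (t + 1) d)) ≤ 1 / 2 ^ K := by
      refine h1.trans (le_of_le_of_eq (b := (2 : ℝ) ^ M * (1 / 2) ^ (M + K)) ?_ ?_)
      · apply mul_le_mul_of_nonneg_left _ (by positivity)
        have e1 : (2 * (1 / 4) : ℝ) = 1 / 2 := by norm_num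
        rw [e1]
        exact pow_le_pow_of_le_one (by norm_num) (by norm_num) (Nat.le_succ _)
      · rw [pow_add, ← mul_assoc, ← mul_pow]
        norm_num
        rw [one_div, inv_pow]
    have h3 : ∀ ω : V → Fin (64 * l) × Bool,
        (pr fun σ : V → Bool => pfB l r (2 * M + K) K (Fintype.card V) S.card <
          pf S (fun g => restr ω j (N.first g)) σ) ≤
        pfD l r K + (if ¬ Pd l (M + (M + K)) (fun d => restr ω j (lay N (t + 1) d)) then
          (1 : ℝ) else 0) := by
      intro ω
      by_cases hω : Pd l (M + (M + K)) fun d => restr ω j (lay N (t + 1) d)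
      · rw [if_neg (not_not.2 hω), add_zero]
        have h4 : M + (M + K) = 2 * M + K := by ring
        rw [h4] at hω
        exact ih (t + 1) (2 * M + K)
          (N.comp fun (τ : V → Bool) (i : V) => if (ω i).1 = j then τ i else (ω i).2) (by omega)
          (fun i => (hin i).restr ω j) hω
      · rw [if_pos hω]
        have h4 := pfD_nonneg l r K
        have h5 := pr_le_one (fun σ : V → Bool =>
          pfB l r (2 * M + K) K (Fintype.card V) S.card <
            pf S (fun g => restr ω j (N.first g)) σ)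
        linarith
    refine (av_mono h3).trans ?_
    rw [av_add, av_const]
    refine add_le_add_right ?_ _
    refine le_trans (le_of_eq ?_) h2
    unfold pr
    exact av_congr fun ω => by congr

/-- The number of pairs for a circuit on a cube whose inputs depend on one coordinate each. -/
theorem net_pf_zero {ι V : Type} [Fintype ι] [Fintype V] [DecidableEq V] {s T l K : ℕ}
    (hl : 1 ≤ l) (hs : s ≤ 2 ^ (l + 1)) (S : Finset (Fin s)) (N : Net ι (V → Bool) s T)
    (hin : ∀ i, Dt 1 (N.inp i)) :
    pr (fun σ : V → Bool => pfB l T 0 K (Fintype.card V) S.card < pf S N.first σ) ≤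
      pfD l T K := by
  refine net_pf hl hs S T 0 0 N (Nat.zero_add T) (fun i => (hin i).mono hl) ?_
  intro g
  refine Dt.of_const fun σ τ => ?_
  unfold lay
  rw [if_neg (Nat.not_lt_zero _), if_neg (Nat.not_lt_zero _)]

end Pool.Agent.H2.AC
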