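import Pool.Agent.H2.AC.Pd

/-! The switching lemma for families of decision lists. -/

set_option autoImplicit false
set_option maxHeartbeats 4000000

namespace Pool.Agent.H2.AC

open Pool.Agent.H58.OVAC Pool.Agent.H58.OVPR Pool.Agent.H58.OVT

section

variable {V Y Γ : Type} [Fintype V] [DecidableEq V] {N : ℕ}

/-- The statement for families. -/
def Fam (j : Fin N) (Y Γ : Type) (V : Type) [Fintype V] [DecidableEq V] (w l : ℕ) (α : ℝ) (m : ℕ) :
    Prop :=
  ∀ (G : Γ → List (Item V Y)) (z : Γ → Y), (∀ g, ∀ x ∈ G g, x.1.1.card ≤ w) →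
    ∀ E : (V → Option Bool) → Prop, Refine E →
      pr (fun ω : V → Fin N × Bool => E (rho j ω) ∧
        ¬ Plt l m fun g => restr ω j (evalL (G g) (z g))) ≤
      (2 * α) ^ m * pr (fun ω : V → Fin N × Bool => E (rho j ω))

theorem fam_zero (j : Fin N) (w l : ℕ) (α : ℝ) : Fam j Y Γ V w l α 0 := by
  intro G z _ E _
  rw [pow_zero, one_mul]
  exact pr_mono fun ω h => h.1

/-- The exponents in the recursion. -/
theorem expo {α : ℝ} (hα0 : 0 < α) (hα1 : 2 * α ≤ 1) (k m c : ℕ) :
    (1 / 2) ^ (k - c) * (2 * α) ^ (m - c) ≤ (1 / 2) ^ k * (2 * α) ^ m / α ^ c := by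
  have hβ0 : 0 < 2 * α := by linarith
  rw [le_div_iff₀ (pow_pos hα0 _)]
  have h1 : (1 / 2 : ℝ) ^ c * (2 * α) ^ c = α ^ c := by
    rw [← mul_pow]
    congr 1
    ring
  rw [← h1]
  calc (1 / 2 : ℝ) ^ (k - c) * (2 * α) ^ (m - c) * ((1 / 2) ^ c * (2 * α) ^ c)
      = ((1 / 2 : ℝ) ^ (k - c + c)) * ((2 * α) ^ (m - c + c)) := by
        rw [pow_add, pow_add]
        ring
    _ ≤ (1 / 2 : ℝ) ^ k * (2 * α) ^ m := by
        apply mul_le_mul
        · exact pow_le_pow_of_le_one (by norm_num) (by norm_num) (by omega)
        · exact pow_le_pow_of_le_one hβ0.le hα1 (by omega)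
        · positivity
        · positivity

theorem multi_aux {w l : ℕ} (j : Fin N) (hN : 2 ≤ N) {α : ℝ} (hα0 : 0 < α) (hα1 : 2 * α ≤ 1)
    (hw : (1 + 4 * (2 / ((N : ℝ) - 1)) / α) ^ w ≤ 2) (M : ℕ)
    (hM : ∀ m ≤ M, Fam j Y Γ V w l α m) (len : ℕ) :
    ∀ L : List (Item V Y), L.length ≤ len → (∀ x ∈ L, x.1.1.card ≤ w) → ∀ (y0 : Y) (k m : ℕ),
      m ≤ M + 1 → (1 ≤ k ∨ m ≤ M) →
      ∀ (G : Γ → List (Item V Y)) (z : Γ → Y), (∀ g, ∀ x ∈ G g, x.1.1.card ≤ w) →
      ∀ E : (V → Option Bool) → Prop, Refine E →
      pr (fun ω : V → Fin N × Bool => E (rho j ω) ∧ (¬ Dlt k (restr ω j (evalL L y0)) ∧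
        ¬ Plt l m fun g => restr ω j (evalL (G g) (z g)))) ≤
        (1 / 2) ^ k * (2 * α) ^ m * pr (fun ω : V → Fin N × Bool => E (rho j ω)) := by
  classical
  have hβ1 : 0 < 2 * α := by linarith
  have hne : Nonempty (Fin N × Bool) := ⟨(j, true)⟩
  have hN' : (2 : ℝ) ≤ N := by exact_mod_cast hN
  obtain ⟨β, hβ⟩ : ∃ β : ℝ, β = 2 / ((N : ℝ) - 1) := ⟨_, rfl⟩
  have hβ0 : 0 ≤ β := by
    rw [hβ]
    apply div_nonneg (by norm_num)
    linarith
  rw [← hβ] at hw
  have hzero : ∀ (L : List (Item V Y)) (y0 : Y) (m : ℕ), m ≤ M →
      ∀ (G : Γ → List (Item V Y)) (z : Γ → Y), (∀ g, ∀ x ∈ G g, x.1.1.card ≤ w) →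
      ∀ E : (V → Option Bool) → Prop, Refine E →
      pr (fun ω : V → Fin N × Bool => E (rho j ω) ∧ (¬ Dlt 0 (restr ω j (evalL L y0)) ∧
        ¬ Plt l m fun g => restr ω j (evalL (G g) (z g)))) ≤
        (1 / 2) ^ 0 * (2 * α) ^ m * pr (fun ω : V → Fin N × Bool => E (rho j ω)) := by
    intro L y0 m hm G z hG E hE
    rw [pow_zero, one_mul]
    exact (pr_mono fun ω h => ⟨h.1, h.2.2⟩).trans (hM m hm G z hG E hE)
  have hnil : ∀ (y0 : Y) (k m : ℕ), (1 ≤ k ∨ m ≤ M) →
      ∀ (G : Γ → List (Item V Y)) (z : Γ → Y), (∀ g, ∀ x ∈ G g, x.1.1.card ≤ w) →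
      ∀ E : (V → Option Bool) → Prop, Refine E →
      pr (fun ω : V → Fin N × Bool => E (rho j ω) ∧ (¬ Dlt k (restr ω j (evalL [] y0)) ∧
        ¬ Plt l m fun g => restr ω j (evalL (G g) (z g)))) ≤
        (1 / 2) ^ k * (2 * α) ^ m * pr (fun ω : V → Fin N × Bool => E (rho j ω)) := by
    intro y0 k m hkm G z hG E hE
    cases k with
    | zero => exact hzero [] y0 m (by omega) G z hG E hE
    | succ k =>
      rw [pr_eq_zero]
      · exact mul_nonneg (mul_nonneg (by positivity) (pow_nonneg hβ1.le _)) (pr_nonneg _)
      · rintro ω ⟨-, h, -⟩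
        exact h (Dlt.of_const (by omega) fun σ τ => rfl)
  induction len with
  | zero =>
    intro L hL _ y0 k m hm hkm G z hG E hE
    have : L = [] := List.length_eq_zero_iff.1 (Nat.le_zero.1 hL)
    subst this
    exact hnil y0 k m hkm G z hG E hE
  | succ len ih =>
    intro L hL hwL y0 k m hm hkm G z hG E hE
    cases L with
    | nil => exact hnil y0 k m hkm G z hG E hE
    | cons x L =>
    rcases Nat.eq_zero_or_pos k with hk0 | hk
    · subst hk0
      exact hzero _ _ _ (by omega) G z hG E hE
    obtain ⟨⟨U, a⟩, v⟩ := x
    have hUw : U.card ≤ w := hwL _ List.mem_cons_self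
    have hL' : L.length ≤ len := by
      rw [List.length_cons] at hL
      omega
    have hwL' : ∀ x ∈ L, x.1.1.card ≤ w := fun x hx => hwL x (List.mem_cons_of_mem _ hx)
    obtain ⟨K, hK⟩ : ∃ K : (V → Option Bool) → Prop, K = fun ρ => ∃ i ∈ U, ρ i = some (!a i) :=
      ⟨_, rfl⟩
    have hEK : Refine fun ρ => E ρ ∧ K ρ := by
      rintro ρ i b ⟨h1, h2⟩ h3
      refine ⟨hE ρ i b h1 h3, ?_⟩
      rw [hK] at h2 ⊢
      obtain ⟨k, hk, h4⟩ := h2
      refine ⟨k, hk, ?_⟩
      have hki : k ≠ i := by
        rintro rfl
        rw [h3] at h4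
        exact absurd h4 (by simp)
      rw [Function.update_of_ne hki]
      exact h4
    -- the falsified case
    have hcase1 : pr (fun ω : V → Fin N × Bool => (E (rho j ω) ∧
        (¬ Dlt k (restr ω j (evalL (((U, a), v) :: L) y0)) ∧
          ¬ Plt l m fun g => restr ω j (evalL (G g) (z g)))) ∧ K (rho j ω)) ≤
        (1 / 2) ^ k * (2 * α) ^ m * pr (fun ω : V → Fin N × Bool => E (rho j ω) ∧ K (rho j ω)) := by
      refine le_trans (pr_mono fun ω hω => ?_)
        (ih L hL' hwL' y0 k m hm hkm G z hG (fun ρ => E ρ ∧ K ρ) hEK)
      obtain ⟨⟨h1, h2, h2'⟩, h3⟩ := hω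
      refine ⟨⟨h1, h3⟩, ?_, h2'⟩
      have h4 : restr ω j (evalL (((U, a), v) :: L) y0) = restr ω j (evalL L y0) := by
        funext σ
        unfold restr
        apply evalL_neg
        rw [hK] at h3
        obtain ⟨i, hi, h5⟩ := h3
        intro h6
        have h7 : (if (ω i).1 = j then σ i else (ω i).2) = a i := h6 i hi
        unfold rho at h5
        by_cases h8 : (ω i).1 = j
        · rw [if_pos h8] at h5
          exact absurd h5 (by simp)
        · rw [if_neg h8] at h5
          rw [if_neg h8] at h7
          have h9 := Option.some_injective _ h5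
          rw [h7] at h9
          simp at h9
      rw [h4] at h2
      exact h2
    -- the event for a set of alive coordinates
    let E' : Finset V → (V → Option Bool) → Prop := fun J ρ =>
      E fun i => if i ∈ U then (if i ∈ J then none else some (a i)) else ρ i
    have hE' : ∀ J, Refine (E' J) := by
      intro J ρ i b h1 h2
      by_cases hi : i ∈ U
      · have h3 : (fun k => if k ∈ U then (if k ∈ J then none else some (a k)) else
            Function.update ρ i (some b) k) =
            fun k => if k ∈ U then (if k ∈ J then none else some (a k)) else ρ k := by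
          funext k
          by_cases hk : k ∈ U
          · simp [hk]
          · have : k ≠ i := by rintro rfl; exact hk hi
            simp [hk, this]
        show E fun k => if k ∈ U then (if k ∈ J then none else some (a k)) else
            Function.update ρ i (some b) k
        rw [h3]
        exact h1
      · have h3 : (fun k => if k ∈ U then (if k ∈ J then none else some (a k)) else
            Function.update ρ i (some b) k) =
            Function.update (fun k => if k ∈ U then (if k ∈ J then none else some (a k))
              else ρ k) i (some b) := by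
          funext k
          by_cases hki : k = i
          · subst hki
            simp [hi]
          · simp [hki]
        show E fun k => if k ∈ U then (if k ∈ J then none else some (a k)) else
            Function.update ρ i (some b) k
        rw [h3]
        refine hE _ i b h1 ?_
        simp [hi, h2]
    let Lf : Finset V → Finset V → List (Item V Y) := fun J T =>
      fixL U (mix J (fun i => decide (i ∈ T)) a) L
    let Gf : Finset V → Finset V → Γ → List (Item V Y) := fun J S g =>
      fixL U (mix J (fun i => decide (i ∈ S)) a) (G g)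
    let Bad : Finset V → Finset V → Finset V → (V → Fin N × Bool) → Prop := fun J T S ω =>
      ¬ Dlt (k - J.card) (restr ω j (evalL (Lf J T) y0)) ∧
        ¬ Plt l (m - J.card) fun g => restr ω j (evalL (Gf J S g) (z g))
    -- the fixed coordinates do not matter
    have hfixindep : ∀ (J T : Finset V) (L₁ : List (Item V Y)) (y₁ : Y) (ω ω' : V → Fin N × Bool),
        (∀ i, i ∉ U → ω i = ω' i) →
        restr ω j (evalL (fixL U (mix J (fun i => decide (i ∈ T)) a) L₁) y₁) =
          restr ω' j (evalL (fixL U (mix J (fun i => decide (i ∈ T)) a) L₁) y₁) := by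
      intro J T L₁ y₁ ω ω' h
      funext σ
      unfold restr
      rw [evalL_fixL, evalL_fixL]
      congr 1
      funext i
      unfold mix
      by_cases hi : i ∈ U
      · simp [hi]
      · simp only [hi, if_false]
        rw [h i hi]
    have hindep : ∀ (J T S : Finset V) (ω ω' : V → Fin N × Bool), (∀ i, i ∉ U → ω i = ω' i) →
        ((E' J (rho j ω) ∧ Bad J T S ω) ↔ (E' J (rho j ω') ∧ Bad J T S ω')) := by
      intro J T S ω ω' h
      have h1 : (fun i => if i ∈ U then (if i ∈ J then none else some (a i)) else rho j ω i) =
          fun i => if i ∈ U then (if i ∈ J then none else some (a i)) else rho j ω' i := by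
        funext i
        by_cases hi : i ∈ U
        · simp [hi]
        · simp only [hi, if_false]
          unfold rho
          rw [h i hi]
      have h2 : restr ω j (evalL (Lf J T) y0) = restr ω' j (evalL (Lf J T) y0) :=
        hfixindep J T L y0 ω ω' h
      have h3 : (fun g => restr ω j (evalL (Gf J S g) (z g))) =
          fun g => restr ω' j (evalL (Gf J S g) (z g)) :=
        funext fun g => hfixindep J S (G g) (z g) ω ω' h
      show (E _ ∧ (¬ Dlt _ (restr ω j (evalL (Lf J T) y0)) ∧
        ¬ Plt l _ fun g => restr ω j (evalL (Gf J S g) (z g)))) ↔ _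
      rw [h1, h2, h3]
    have hpat : ∀ (J : Finset V) (ω ω' : V → Fin N × Bool), (∀ i ∈ U, ω i = ω' i) →
        (Pat j U J a ω ↔ Pat j U J a ω') := by
      intro J ω ω' h
      unfold Pat rho
      refine forall₂_congr fun i hi => ?_
      rw [h i hi]
    -- one pattern
    have hone : ∀ J ∈ U.powerset.erase ∅, ∀ T S : Finset V,
        pr (fun ω : V → Fin N × Bool => Pat j U J a ω ∧ (E' J (rho j ω) ∧ Bad J T S ω)) ≤
        (1 / 2) ^ k * (2 * α) ^ m * ((β / α) ^ J.card * pr (fun ω : V → Fin N × Bool =>
          E (rho j ω) ∧ ¬ K (rho j ω))) := by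
      intro J hJ T S
      have hJU : J ⊆ U := Finset.mem_powerset.1 (Finset.mem_of_mem_erase hJ)
      have hJc : 1 ≤ J.card := Finset.card_pos.2
        (Finset.nonempty_iff_ne_empty.2 (Finset.ne_of_mem_erase hJ))
      rw [pr_and_of_disjoint U (hpat J) (hindep J T S)]
      have h1 := ih (Lf J T) ((fixL_length _ _ _).trans hL') (fixL_width _ _ _ hwL') y0
        (k - J.card) (m - J.card) (by omega) (by omega) (Gf J S) z
        (fun g => fixL_width _ _ _ (hG g)) (E' J) (hE' J)
      have h2 : pr (fun ω : V → Fin N × Bool => E' J (rho j ω)) ≤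
          pr (fun ω : V → Fin N × Bool => E' ∅ (rho j ω)) := by
        refine pr_mono fun ω hω => ?_
        refine hE.of_le J _ _ ?_ ?_ ?_ hω
        · intro i hi
          by_cases hiU : i ∈ U <;> simp [hiU, hi]
        · intro i hi
          simp [hJU hi, hi]
        · intro i hi
          simp [hJU hi]
      have h3 := pr_pat hN j U J hJU a
      rw [← hβ] at h3
      have h4 : pr (Pat j U ∅ a) * pr (fun ω : V → Fin N × Bool => E' ∅ (rho j ω)) ≤
          pr (fun ω : V → Fin N × Bool => E (rho j ω) ∧ ¬ K (rho j ω)) := by
        rw [← pr_and_of_disjoint U (hpat ∅) (t := fun ω : V → Fin N × Bool => E' ∅ (rho j ω))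
          (fun ω ω' h => by
            have h1 : (fun i => if i ∈ U then (if i ∈ (∅ : Finset V) then none
                else some (a i)) else rho j ω i) =
                fun i => if i ∈ U then (if i ∈ (∅ : Finset V) then none else some (a i))
                  else rho j ω' i := by
              funext i
              by_cases hi : i ∈ U
              · simp [hi]
              · simp only [hi, if_false]
                unfold rho
                rw [h i hi]
            show E _ ↔ E _
            rw [h1])]
        refine pr_mono fun ω hω => ?_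
        obtain ⟨h5, h6⟩ := hω
        constructor
        · have h7 : (fun i => if i ∈ U then (if i ∈ (∅ : Finset V) then none
              else some (a i)) else rho j ω i) = rho j ω := by
            funext i
            by_cases hi : i ∈ U
            · rw [if_pos hi]
              exact (h5 i hi).symm
            · rw [if_neg hi]
          have h8 : E fun i => if i ∈ U then (if i ∈ (∅ : Finset V) then none
              else some (a i)) else rho j ω i := h6
          rw [h7] at h8
          exact h8
        · rw [hK]
          rintro ⟨i, hi, h7⟩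
          have h8 := h5 i hi
          rw [h7] at h8
          simp at h8
      have h5 := expo hα0 hα1 k m J.card
      have hX : 0 ≤ (1 / 2 : ℝ) ^ k * (2 * α) ^ m / α ^ J.card := by positivity
      calc pr (Pat j U J a) * pr (fun ω : V → Fin N × Bool => E' J (rho j ω) ∧ Bad J T S ω)
          ≤ (β ^ J.card * pr (Pat j U ∅ a)) * (((1 / 2) ^ k * (2 * α) ^ m / α ^ J.card) *
            pr (fun ω : V → Fin N × Bool => E' ∅ (rho j ω))) := by
            rw [h3]
            apply mul_le_mul_of_nonneg_left _ (mul_nonneg (pow_nonneg hβ0 _) (pr_nonneg _))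
            refine h1.trans ?_
            exact mul_le_mul h5 h2 (pr_nonneg _) hX
        _ = (1 / 2) ^ k * (2 * α) ^ m * ((β / α) ^ J.card * (pr (Pat j U ∅ a) *
            pr (fun ω : V → Fin N × Bool => E' ∅ (rho j ω)))) := by
            rw [div_pow]
            ring
        _ ≤ _ := by
            apply mul_le_mul_of_nonneg_left _ (by positivity)
            exact mul_le_mul_of_nonneg_left h4 (pow_nonneg (div_nonneg hβ0 hα0.le) _)
    -- the decomposition
    have hcase2 : pr (fun ω : V → Fin N × Bool => (E (rho j ω) ∧
        (¬ Dlt k (restr ω j (evalL (((U, a), v) :: L) y0)) ∧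
          ¬ Plt l m fun g => restr ω j (evalL (G g) (z g)))) ∧ ¬ K (rho j ω)) ≤
        (1 / 2) ^ k * (2 * α) ^ m * pr (fun ω : V → Fin N × Bool =>
          E (rho j ω) ∧ ¬ K (rho j ω)) := by
      have hcover : ∀ ω : V → Fin N × Bool, (E (rho j ω) ∧
          (¬ Dlt k (restr ω j (evalL (((U, a), v) :: L) y0)) ∧
            ¬ Plt l m fun g => restr ω j (evalL (G g) (z g)))) ∧ ¬ K (rho j ω) →
          ∃ J ∈ U.powerset.erase ∅, ∃ p ∈ J.powerset ×ˢ J.powerset, Pat j U J a ω ∧
            (E' J (rho j ω) ∧ Bad J p.1 p.2 ω) := by
        rintro ω ⟨⟨h1, h2, h2'⟩, h3⟩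
        obtain ⟨J, hJ⟩ : ∃ J : Finset V, J = U.filter fun i => (ω i).1 = j := ⟨_, rfl⟩
        have hJU : J ⊆ U := by rw [hJ]; exact Finset.filter_subset _ _
        have hJmem : ∀ i ∈ U, (i ∈ J ↔ (ω i).1 = j) := by
          intro i hi
          rw [hJ, Finset.mem_filter]
          exact ⟨fun h => h.2, fun h => ⟨hi, h⟩⟩
        have hfix : ∀ i ∈ U, i ∉ J → (ω i).2 = a i := by
          intro i hi hiJ
          by_contra h4
          apply h3
          rw [hK]
          refine ⟨i, hi, ?_⟩
          unfold rho
          rw [if_neg fun h => hiJ ((hJmem i hi).2 h)]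
          congr 1
          revert h4
          cases (ω i).2 <;> cases a i <;> simp
        have hPat : Pat j U J a ω := by
          intro i hi
          unfold rho
          by_cases hiJ : i ∈ J
          · rw [if_pos ((hJmem i hi).1 hiJ), if_pos hiJ]
          · rw [if_neg fun h => hiJ ((hJmem i hi).2 h), if_neg hiJ, hfix i hi hiJ]
        have hEJ : E' J (rho j ω) := by
          have h4 : (fun i => if i ∈ U then (if i ∈ J then none else some (a i)) else
              rho j ω i) = rho j ω := by
            funext i
            by_cases hi : i ∈ U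
            · rw [if_pos hi]
              exact (hPat i hi).symm
            · rw [if_neg hi]
          show E fun i => if i ∈ U then (if i ∈ J then none else some (a i)) else rho j ω i
          rw [h4]
          exact h1
        -- restriction with values on the alive coordinates
        have hval : ∀ (L₁ : List (Item V Y)) (y₁ : Y) (τ : V → Bool),
            restr ω j (evalL (fixL U (mix J (fun i => decide (i ∈ J.filter fun i => τ i = true)) a)
              L₁) y₁) = fun σ => restr ω j (evalL L₁ y₁) (mix J τ σ) := by
          intro L₁ y₁ τ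
          funext σ
          unfold restr
          rw [evalL_fixL]
          congr 1
          funext i
          unfold mix
          by_cases hiU : i ∈ U
          · by_cases hiJ : i ∈ J
            · simp only [hiU, hiJ, if_true, (hJmem i hiU).1 hiJ, Finset.mem_filter, true_and]
              cases τ i <;> simp
            · have h5 : ¬ (ω i).1 = j := fun h => hiJ ((hJmem i hiU).2 h)
              simp only [hiU, hiJ, if_true, if_false, h5]
              exact (hfix i hiU hiJ).symm
          · have hiJ : i ∉ J := fun h => hiU (hJU h)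
            simp only [hiU, hiJ, if_false]
        have hJe : J ≠ ∅ := by
          intro hJe
          apply h2
          apply Dlt.of_const hk
          have h4 : ∀ σ : V → Bool, restr ω j (evalL (((U, a), v) :: L) y0) σ = v := by
            intro σ
            unfold restr
            apply evalL_pos
            intro i hi
            have h5 : i ∉ J := by rw [hJe]; exact Finset.notMem_empty i
            show (if (ω i).1 = j then σ i else (ω i).2) = a i
            rw [if_neg fun h => h5 ((hJmem i hi).2 h)]
            exact hfix i hi h5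
          intro σ τ
          rw [h4, h4]
        have hJmem' : J ∈ U.powerset.erase ∅ :=
          Finset.mem_erase.2 ⟨hJe, Finset.mem_powerset.2 hJU⟩
        -- the values for the list
        obtain ⟨T, hT, hT2⟩ : ∃ T ∈ J.powerset,
            ¬ Dlt (k - J.card) (restr ω j (evalL (Lf J T) y0)) := by
          by_contra hcon
          push Not at hcon
          apply h2
          obtain ⟨t, ht⟩ : ∃ t, k - J.card = t + 1 := by
            cases h : k - J.card with
            | zero =>
              have h4 := hcon ∅ (Finset.empty_mem_powerset J)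
              rw [h] at h4
              exact absurd h4 id
            | succ t => exact ⟨t, rfl⟩
          have hk' : k = (t + J.card) + 1 := by omega
          rw [hk']
          show Dt (t + J.card) _
          apply Dt.query J
          intro τ
          by_cases hsat : ∀ i ∈ J, τ i = a i
          · apply Dt.of_const
            have h4 : ∀ σ : V → Bool,
                restr ω j (evalL (((U, a), v) :: L) y0) (mix J τ σ) = v := by
              intro σ
              unfold restr
              apply evalL_pos
              intro i hi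
              show (if (ω i).1 = j then mix J τ σ i else (ω i).2) = a i
              by_cases hiJ : i ∈ J
              · rw [if_pos ((hJmem i hi).1 hiJ)]
                unfold mix
                rw [if_pos hiJ]
                exact hsat i hiJ
              · rw [if_neg fun h => hiJ ((hJmem i hi).2 h)]
                exact hfix i hi hiJ
            intro σ σ'
            show restr ω j (evalL (((U, a), v) :: L) y0) (mix J τ σ) =
              restr ω j (evalL (((U, a), v) :: L) y0) (mix J τ σ')
            rw [h4, h4]
          · have hT := hcon (J.filter fun i => τ i = true)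
              (Finset.mem_powerset.2 (Finset.filter_subset _ _))
            rw [ht] at hT
            have hT' : Dt t (restr ω j (evalL (Lf J (J.filter fun i => τ i = true)) y0)) := hT
            have h6 : restr ω j (evalL (Lf J (J.filter fun i => τ i = true)) y0) =
                fun σ => restr ω j (evalL L y0) (mix J τ σ) := hval L y0 τ
            rw [h6] at hT'
            refine (congrArg (Dt t) ?_).mp hT'
            funext σ
            unfold restr
            rw [evalL_neg (x := ((U, a), v))]
            intro h5
            apply hsat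
            intro i hi
            have h6 := h5 i (hJU hi)
            have h7 : (if (ω i).1 = j then mix J τ σ i else (ω i).2) = a i := h6
            rw [if_pos ((hJmem i (hJU hi)).1 hi)] at h7
            unfold mix at h7
            rwa [if_pos hi] at h7
        -- the values for the family
        obtain ⟨S, hS, hS2⟩ : ∃ S ∈ J.powerset,
            ¬ Plt l (m - J.card) fun g => restr ω j (evalL (Gf J S g) (z g)) := by
          by_contra hcon
          push Not at hcon
          apply h2'
          obtain ⟨t, ht⟩ : ∃ t, m - J.card = t + 1 := by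
            cases h : m - J.card with
            | zero =>
              have h4 := hcon ∅ (Finset.empty_mem_powerset J)
              rw [h] at h4
              exact absurd h4 id
            | succ t => exact ⟨t, rfl⟩
          have hm' : m = (t + J.card) + 1 := by omega
          rw [hm']
          show Pd l (t + J.card) _
          apply Pd.query J
          intro τ
          have hT := hcon (J.filter fun i => τ i = true)
            (Finset.mem_powerset.2 (Finset.filter_subset _ _))
          rw [ht] at hT
          have hT' : Pd l t fun g => restr ω j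
            (evalL (Gf J (J.filter fun i => τ i = true) g) (z g)) := hT
          have h6 : (fun g => restr ω j (evalL (Gf J (J.filter fun i => τ i = true) g) (z g))) =
              fun g σ => restr ω j (evalL (G g) (z g)) (mix J τ σ) :=
            funext fun g => hval (G g) (z g) τ
          rw [h6] at hT'
          exact hT'
        exact ⟨J, hJmem', (T, S), Finset.mem_product.2 ⟨hT, hS⟩, hPat, hEJ, hT2, hS2⟩
      refine (pr_mono hcover).trans ?_
      refine (pr_exists_le _ _).trans ?_
      have h1 : ∀ J ∈ U.powerset.erase ∅, pr (fun ω : V → Fin N × Bool =>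
          ∃ p ∈ J.powerset ×ˢ J.powerset, Pat j U J a ω ∧ (E' J (rho j ω) ∧
          Bad J p.1 p.2 ω)) ≤
          (4 * β / α) ^ J.card * ((1 / 2) ^ k * (2 * α) ^ m * pr (fun ω : V → Fin N × Bool =>
            E (rho j ω) ∧ ¬ K (rho j ω))) := by
        intro J hJ
        refine (pr_exists_le _ _).trans ((Finset.sum_le_sum fun p _ => hone J hJ p.1 p.2).trans
          (le_of_eq ?_))
        rw [Finset.sum_const, Finset.card_product, Finset.card_powerset, nsmul_eq_mul]
        push_cast
        have h4 : (4 * β / α) ^ J.card = 2 ^ J.card * 2 ^ J.card * (β / α) ^ J.card := by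
          rw [← mul_pow, ← mul_pow]
          congr 1
          ring
        rw [h4]
        ring
      refine (Finset.sum_le_sum h1).trans ?_
      rw [← Finset.sum_mul]
      have h2 : ∑ J ∈ U.powerset.erase ∅, (4 * β / α) ^ J.card ≤ 1 := by
        have h3 := Finset.sum_pow_mul_eq_add_pow (4 * β / α) 1 U
        simp only [one_pow, mul_one] at h3
        have h4 : ∑ J ∈ U.powerset.erase ∅, (4 * β / α) ^ J.card +
            (4 * β / α) ^ (∅ : Finset V).card = ∑ J ∈ U.powerset, (4 * β / α) ^ J.card :=
          Finset.sum_erase_add _ _ (Finset.empty_mem_powerset U)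
        rw [h3, Finset.card_empty, pow_zero] at h4
        have h5 : (4 * β / α + 1) ^ U.card ≤ 2 := by
          have h6 : (1 : ℝ) ≤ 1 + 4 * β / α := by
            have : 0 ≤ 4 * β / α := by positivity
            linarith
          calc (4 * β / α + 1) ^ U.card = (1 + 4 * β / α) ^ U.card := by rw [add_comm]
            _ ≤ (1 + 4 * β / α) ^ w := pow_le_pow_right₀ h6 hUw
            _ ≤ 2 := hw
        linarith
      have h3 : 0 ≤ (1 / 2) ^ k * (2 * α) ^ m * pr (fun ω : V → Fin N × Bool =>
          E (rho j ω) ∧ ¬ K (rho j ω)) := mul_nonneg (by positivity) (pr_nonneg _)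
      calc _ ≤ 1 * ((1 / 2) ^ k * (2 * α) ^ m * pr (fun ω : V → Fin N × Bool =>
            E (rho j ω) ∧ ¬ K (rho j ω))) := mul_le_mul_of_nonneg_right h2 h3
        _ = _ := one_mul _
    have hsum := add_le_add hcase1 hcase2
    rw [pr_split, ← mul_add, pr_split (fun ω : V → Fin N × Bool => E (rho j ω))] at hsum
    exact hsum

/-- **The switching lemma for families**: outside an event of probability `(2 α) ^ m` there is a
common decision tree of depth less than `m` at all of whose leaves all functions have depth at most
`l`. -/
theorem multi [Fintype Γ] {w l : ℕ} (j : Fin N) (hN : 2 ≤ N) {α : ℝ} (hα0 : 0 < α)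
    (hα1 : 2 * α ≤ 1) (hw : (1 + 4 * (2 / ((N : ℝ) - 1)) / α) ^ w ≤ 2)
    (hΓ : Fintype.card Γ ≤ 2 ^ (l + 1)) (m : ℕ) : Fam j Y Γ V w l α m := by
  classical
  have hne : Nonempty (Fin N × Bool) := ⟨(j, true)⟩
  induction m using Nat.strong_induction_on with
  | _ m ih =>
    rcases Nat.eq_zero_or_pos m with hm | hm
    · subst hm
      exact fam_zero j w l α
    obtain ⟨M, rfl⟩ : ∃ M, m = M + 1 := ⟨m - 1, by omega⟩
    intro G z hG E hE
    have h1 : ∀ ω : V → Fin N × Bool, (E (rho j ω) ∧
        ¬ Plt l (M + 1) fun g => restr ω j (evalL (G g) (z g))) →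
        ∃ g ∈ (Finset.univ : Finset Γ), (E (rho j ω) ∧
          (¬ Dlt (l + 1) (restr ω j (evalL (G g) (z g))) ∧
          ¬ Plt l (M + 1) fun g => restr ω j (evalL (G g) (z g)))) := by
      rintro ω ⟨h2, h3⟩
      by_contra hcon
      push Not at hcon
      apply h3
      show Pd l M _
      apply Pd.of_all
      intro g
      by_contra h4
      exact h3 (hcon g (Finset.mem_univ g) h2 h4)
    refine (pr_mono h1).trans ((pr_exists_le _ _).trans ?_)
    have h2 : ∀ g ∈ (Finset.univ : Finset Γ), _ := fun g _ =>
      multi_aux (Γ := Γ) j hN hα0 hα1 hw M (fun m' hm' => ih m' (by omega)) (G g).length (G g)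
        le_rfl (hG g) (z g) (l + 1) (M + 1) le_rfl (Or.inl (by omega)) G z hG E hE
    refine (Finset.sum_le_sum h2).trans ?_
    rw [Finset.sum_const, Finset.card_univ, nsmul_eq_mul]
    have h3 : (Fintype.card Γ : ℝ) * (1 / 2) ^ (l + 1) ≤ 1 := by
      have h4 : (Fintype.card Γ : ℝ) ≤ 2 ^ (l + 1) := by exact_mod_cast hΓ
      calc (Fintype.card Γ : ℝ) * (1 / 2) ^ (l + 1) ≤ 2 ^ (l + 1) * (1 / 2) ^ (l + 1) := by
            apply mul_le_mul_of_nonneg_right h4 (by positivity)
        _ = 1 := by
            rw [← mul_pow]
            norm_num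
    have h5 : 0 ≤ (2 * α) ^ (M + 1) * pr (fun ω : V → Fin N × Bool => E (rho j ω)) :=
      mul_nonneg (by positivity) (pr_nonneg _)
    calc (Fintype.card Γ : ℝ) * ((1 / 2) ^ (l + 1) * (2 * α) ^ (M + 1) *
          pr (fun ω : V → Fin N × Bool => E (rho j ω)))
        = ((Fintype.card Γ : ℝ) * (1 / 2) ^ (l + 1)) * ((2 * α) ^ (M + 1) *
          pr (fun ω : V → Fin N × Bool => E (rho j ω))) := by ring
      _ ≤ 1 * ((2 * α) ^ (M + 1) * pr (fun ω : V → Fin N × Bool => E (rho j ω))) :=
          mul_le_mul_of_nonneg_right h3 h5
      _ = _ := one_mul _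

end

end Pool.Agent.H2.AC
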