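import Pool.Agent.H2.AC.Sn
import Pool.Agent.H58.CE.Par2
import Pool.Agent.H58.CE.Par3

/-! The numerics. -/

set_option autoImplicit false
set_option maxHeartbeats 4000000

namespace Pool.Agent.H2.AC

open Pool.Agent.H58.OVAC Pool.Agent.H58.OVPR Pool.Agent.H58.OVT Pool.Agent.H58.CD Pool.Agent.H58.CE

private theorem t1_le {T y : ℕ} (hy : 2 ≤ y) : T + 1 ≤ y ^ (T + 1) := by
  have h1 : T + 1 < 2 ^ (T + 1) := Nat.lt_two_pow_self
  have h2 : 2 ^ (T + 1) ≤ y ^ (T + 1) := Nat.pow_le_pow_left hy _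
  omega

private theorem add_le_mul {a x : ℕ} (hx : 1 ≤ x) : a + x ≤ (a + 1) * x := by
  nlinarith

private theorem numA {T L a : ℕ} (hL : 1 ≤ L) :
    10 * Pool.Agent.H2.AC.snB L T 0 (a + 26 * L * (T + 1)) ≤
      (a + 1) * (2 ^ 20 * L) ^ (2 ^ 20 * (T + 1)) := by
  obtain ⟨y, hy⟩ : ∃ y, y = 2 ^ 20 * L := ⟨_, rfl⟩
  rw [← hy]
  have hy1 : 2 ≤ y := by omega
  unfold Pool.Agent.H2.AC.snB
  have h1 : 2 ^ T * (0 + (a + 26 * L * (T + 1))) + L ≤ 2 ^ T * ((a + 1) * (27 * L * (T + 1))) := by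
    have e1 : 1 ≤ 2 ^ T := Nat.one_le_two_pow
    have e2 : L ≤ 2 ^ T * (L * (T + 1)) := by
      calc L = 1 * (L * 1) := by ring
        _ ≤ 2 ^ T * (L * (T + 1)) := Nat.mul_le_mul e1 (Nat.mul_le_mul_left _ (by omega))
    have e3 : a + 27 * L * (T + 1) ≤ (a + 1) * (27 * L * (T + 1)) :=
      add_le_mul (Nat.mul_pos (by omega) (by omega))
    calc 2 ^ T * (0 + (a + 26 * L * (T + 1))) + L
        ≤ 2 ^ T * (a + 26 * L * (T + 1)) + 2 ^ T * (L * (T + 1)) := by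
          rw [zero_add]
          exact Nat.add_le_add_left e2 _
      _ = 2 ^ T * (a + 27 * L * (T + 1)) := by ring
      _ ≤ _ := Nat.mul_le_mul_left _ e3
  calc 10 * ((64 * L) ^ T * (2 ^ T * (0 + (a + 26 * L * (T + 1))) + L))
      ≤ 10 * ((64 * L) ^ T * (2 ^ T * ((a + 1) * (27 * L * (T + 1))))) :=
        Nat.mul_le_mul_left _ (Nat.mul_le_mul_left _ h1)
    _ = (a + 1) * ((64 * L * 2) ^ T * (270 * L) * (T + 1)) := by
        rw [mul_pow (64 * L) 2 T]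
        ring
    _ ≤ (a + 1) * (y ^ T * y * y ^ (T + 1)) := by
        refine Nat.mul_le_mul_left _ (Nat.mul_le_mul (Nat.mul_le_mul
          (Nat.pow_le_pow_left (by omega) _) (by omega)) (t1_le hy1))
    _ = (a + 1) * y ^ (2 * T + 2) := by ring
    _ ≤ (a + 1) * y ^ (2 ^ 20 * (T + 1)) :=
        Nat.mul_le_mul_left _ (Nat.pow_le_pow_right (by omega) (by omega))

private theorem numB {T L a n s : ℕ} (hL : 1 ≤ L) :
    20 * pfB L T 0 (a + 26 * L * (T + 1)) (2 * n) s ≤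
      2 * n * ((a + 1) * (2 ^ 20 * L) ^ (2 ^ 20 * (T + 1))) +
        s * (2 ^ 20 * L) ^ (2 ^ 20 * (T + 1)) := by
  obtain ⟨y, hy⟩ : ∃ y, y = 2 ^ 20 * L := ⟨_, rfl⟩
  rw [← hy]
  have hy1 : 2 ≤ y := by omega
  have hyL : 2 ^ 40 * L ^ 2 = y ^ 2 := by
    rw [hy]
    ring
  unfold pfB
  have h1 : a + 26 * L * (T + 1) ≤ (a + 1) * (26 * L * (T + 1)) :=
    add_le_mul (Nat.mul_pos (by omega) (by omega))
  have h2 : 20 * ((2 * (64 * L) ^ 2) ^ T * (2 * (2 ^ T * (0 + (a + 26 * L * (T + 1)))) * (2 * n))) ≤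
      2 * n * ((a + 1) * y ^ (2 ^ 20 * (T + 1))) := by
    calc 20 * ((2 * (64 * L) ^ 2) ^ T * (2 * (2 ^ T * (0 + (a + 26 * L * (T + 1)))) * (2 * n)))
        = 2 * n * ((2 * (64 * L) ^ 2 * 2) ^ T * 40 * (a + 26 * L * (T + 1))) := by
          rw [zero_add, mul_pow (2 * (64 * L) ^ 2) 2 T]
          ring
      _ ≤ 2 * n * ((2 * (64 * L) ^ 2 * 2) ^ T * 40 * ((a + 1) * (26 * L * (T + 1)))) :=
          Nat.mul_le_mul_left _ (Nat.mul_le_mul_left _ h1)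
      _ = 2 * n * ((a + 1) * ((2 * (64 * L) ^ 2 * 2) ^ T * (1040 * L) * (T + 1))) := by ring
      _ ≤ 2 * n * ((a + 1) * ((y ^ 2) ^ T * y * y ^ (T + 1))) := by
          refine Nat.mul_le_mul_left _ (Nat.mul_le_mul_left _ (Nat.mul_le_mul (Nat.mul_le_mul
            (Nat.pow_le_pow_left ?_ _) (by omega)) (t1_le hy1)))
          rw [← hyL]
          have e1 : 2 * (64 * L) ^ 2 * 2 = 16384 * L ^ 2 := by ring
          rw [e1]
          exact Nat.mul_le_mul_right _ (by norm_num)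
      _ = 2 * n * ((a + 1) * y ^ (3 * T + 2)) := by ring
      _ ≤ 2 * n * ((a + 1) * y ^ (2 ^ 20 * (T + 1))) :=
          Nat.mul_le_mul_left _ (Nat.mul_le_mul_left _ (Nat.pow_le_pow_right (by omega) (by omega)))
  have h3 : 20 * ((2 * (64 * L) ^ 2) ^ T * (3 * L ^ 2 * s)) ≤ s * y ^ (2 ^ 20 * (T + 1)) := by
    calc 20 * ((2 * (64 * L) ^ 2) ^ T * (3 * L ^ 2 * s))
        = s * ((2 * (64 * L) ^ 2) ^ T * (60 * L ^ 2)) := by ring
      _ ≤ s * ((y ^ 2) ^ T * y ^ 2) := by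
          refine Nat.mul_le_mul_left _ (Nat.mul_le_mul (Nat.pow_le_pow_left ?_ _) ?_)
          · rw [← hyL]
            have e1 : 2 * (64 * L) ^ 2 = 8192 * L ^ 2 := by ring
            rw [e1]
            exact Nat.mul_le_mul_right _ (by norm_num)
          · rw [← hyL]
            exact Nat.mul_le_mul_right _ (by norm_num)
      _ = s * y ^ (2 * T + 2) := by ring
      _ ≤ s * y ^ (2 ^ 20 * (T + 1)) :=
          Nat.mul_le_mul_left _ (Nat.pow_le_pow_right (by omega) (by omega))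
  calc _ = 20 * ((2 * (64 * L) ^ 2) ^ T * (2 * (2 ^ T * (0 + (a + 26 * L * (T + 1)))) * (2 * n))) +
        20 * ((2 * (64 * L) ^ 2) ^ T * (3 * L ^ 2 * s)) := by ring
    _ ≤ _ := Nat.add_le_add h2 h3

private theorem numE {n S T L l : ℕ} (hnL : n ≤ 2 ^ L) (hS : S + 1 ≤ 2 ^ L) (hl : l ≤ L)
    (hL : 1 ≤ L) (hT : (32 * qS₁ L) ^ (T + 1) ≤ 2 ^ (64 * L)) :
    errB (qK T L) (qD T L l) S T (qS₁ L) (qG n S T L l) ≤ 1 / 10000 := by
  have h0 := (qnum_tail (n := n) (s := S) (T := T) (h := 0) (L := L) (l := l) hnL hS hl hL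
    (by rw [zero_add]; exact hT)).1
  rw [zero_add] at h0
  unfold errB
  obtain ⟨z, hz⟩ : ∃ z : ℝ, z = 2 * ((qD T L l : ℝ) * (S * ((qD T L l : ℝ) *
    tailB T (qS₁ L) (qG n S T L l)))) := ⟨_, rfl⟩
  rw [← hz] at h0 ⊢
  have hk : ((qK T L : ℕ) : ℝ) = 100000 * (T + 2) *
      ((Pool.Agent.H58.CE.snB T (qS₁ L) : ℕ) + 2) := by
    unfold qK
    push_cast
    ring
  rw [hk]
  obtain ⟨u, hu⟩ : ∃ u : ℝ, u = ((Pool.Agent.H58.CE.snB T (qS₁ L) : ℕ) : ℝ) := ⟨_, rfl⟩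
  have hu0 : 0 ≤ u := by rw [hu]; positivity
  rw [← hu]
  have hT0 : (0 : ℝ) ≤ T := Nat.cast_nonneg T
  have hden : (0 : ℝ) < 100000 * (T + 2) * (u + 2) := by positivity
  rw [div_mul_eq_mul_div, div_le_iff₀ hden]
  have h1 : 0 ≤ (T : ℝ) * u := by positivity
  nlinarith

theorem num_main {n S T L l a s : ℕ} (_hn : 2 ≤ n) (hnL : n ≤ 2 ^ L) (hS : S + 1 ≤ 2 ^ L)
    (hl : l ≤ L) (hL : 1 ≤ L) (hT : (32 * qS₁ L) ^ (T + 1) ≤ 2 ^ (64 * L))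
    (ha : (a + 1) * (2 ^ 20 * L) ^ (2 ^ 20 * (T + 1)) ≤ n)
    (hs : s * (2 ^ 20 * L) ^ (2 ^ 20 * (T + 1)) < n ^ 2) :
    (n : ℝ) * (Pool.Agent.H2.AC.snB L T 0 (a + 26 * L * (T + 1)) : ℕ) +
      (pfB L T 0 (a + 26 * L * (T + 1)) (2 * n) s : ℕ) +
      (n : ℝ) ^ 2 * errB (qK T L) (qD T L l) S T (qS₁ L) (qG n S T L l) ≤
      3 / 10 * (n : ℝ) ^ 2 := by
  have h1 := numE (n := n) hnL hS hl hL hT
  have h2 := (numA (T := T) (a := a) hL).trans ha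
  have h3 := numB (T := T) (a := a) (n := n) (s := s) hL
  have h2' : 10 * ((Pool.Agent.H2.AC.snB L T 0 (a + 26 * L * (T + 1)) : ℕ) : ℝ) ≤ n := by
    exact_mod_cast h2
  have h4 : 20 * pfB L T 0 (a + 26 * L * (T + 1)) (2 * n) s ≤ 3 * n ^ 2 := by
    have e1 : 2 * n * ((a + 1) * (2 ^ 20 * L) ^ (2 ^ 20 * (T + 1))) ≤ 2 * n * n :=
      Nat.mul_le_mul_left _ ha
    have e2 : 2 * n * n = 2 * n ^ 2 := by ring
    omega
  have h4' : 20 * ((pfB L T 0 (a + 26 * L * (T + 1)) (2 * n) s : ℕ) : ℝ) ≤ 3 * (n : ℝ) ^ 2 := by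
    exact_mod_cast h4
  have hn0 : (0 : ℝ) ≤ n := Nat.cast_nonneg n
  have h5 : (n : ℝ) * (10 * ((Pool.Agent.H2.AC.snB L T 0 (a + 26 * L * (T + 1)) : ℕ) : ℝ)) ≤
      n * n := mul_le_mul_of_nonneg_left h2' hn0
  have h6 : (n : ℝ) ^ 2 * errB (qK T L) (qD T L l) S T (qS₁ L) (qG n S T L l) ≤
      (n : ℝ) ^ 2 * (1 / 10000) := mul_le_mul_of_nonneg_left h1 (by positivity)
  nlinarith

theorem num_tail {T L a : ℕ} (hL : 1 ≤ L) :
    3 * 2 ^ a * (snD L T (a + 26 * L * (T + 1)) + pfD L T (a + 26 * L * (T + 1))) ≤ 1 / 100 := by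
  have h1 : 64 * L ≤ 2 ^ (7 * L) := by
    have e1 : L < 2 ^ L := Nat.lt_two_pow_self
    calc 64 * L ≤ 2 ^ 6 * 2 ^ L := Nat.mul_le_mul (by norm_num) e1.le
      _ = 2 ^ (6 + L) := (pow_add _ _ _).symm
      _ ≤ 2 ^ (7 * L) := Nat.pow_le_pow_right (by norm_num) (by omega)
  have h2 : 2 * (64 * L) ^ 2 ≤ 2 ^ (15 * L) := by
    calc 2 * (64 * L) ^ 2 ≤ 2 * (2 ^ (7 * L)) ^ 2 :=
          Nat.mul_le_mul_left _ (Nat.pow_le_pow_left h1 2)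
      _ = 2 ^ (14 * L + 1) := by ring
      _ ≤ 2 ^ (15 * L) := Nat.pow_le_pow_right (by norm_num) (by omega)
  have h3 : 300 * (T * (64 * L) ^ T + T * (2 * (64 * L) ^ 2) ^ T) ≤ 2 ^ (26 * L * (T + 1)) := by
    have e0 : T ≤ 2 ^ T := Nat.lt_two_pow_self.le
    have e1 : (64 * L) ^ T ≤ 2 ^ (15 * L * T) := by
      calc (64 * L) ^ T ≤ (2 ^ (7 * L)) ^ T := Nat.pow_le_pow_left h1 T
        _ = 2 ^ (7 * L * T) := (pow_mul _ _ _).symm
        _ ≤ 2 ^ (15 * L * T) := Nat.pow_le_pow_right (by norm_num)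
            (Nat.mul_le_mul_right _ (by omega))
    have e2 : (2 * (64 * L) ^ 2) ^ T ≤ 2 ^ (15 * L * T) := by
      calc (2 * (64 * L) ^ 2) ^ T ≤ (2 ^ (15 * L)) ^ T := Nat.pow_le_pow_left h2 T
        _ = 2 ^ (15 * L * T) := (pow_mul _ _ _).symm
    calc 300 * (T * (64 * L) ^ T + T * (2 * (64 * L) ^ 2) ^ T)
        ≤ 300 * (2 ^ T * 2 ^ (15 * L * T) + 2 ^ T * 2 ^ (15 * L * T)) :=
          Nat.mul_le_mul_left _ (Nat.add_le_add (Nat.mul_le_mul e0 e1) (Nat.mul_le_mul e0 e2))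
      _ = 600 * (2 ^ T * 2 ^ (15 * L * T)) := by ring
      _ ≤ 2 ^ 10 * (2 ^ T * 2 ^ (15 * L * T)) := Nat.mul_le_mul_right _ (by norm_num)
      _ = 2 ^ (10 + (T + 15 * L * T)) := by rw [pow_add, pow_add]
      _ ≤ 2 ^ (26 * L * (T + 1)) := by
          apply Nat.pow_le_pow_right (by norm_num)
          nlinarith [Nat.mul_le_mul_right T hL]
  have h3' : 300 * ((T : ℝ) * ((64 * L : ℕ) : ℝ) ^ T + T * (2 * ((64 * L : ℕ) : ℝ) ^ 2) ^ T) ≤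
      2 ^ (26 * L * (T + 1)) := by exact_mod_cast h3
  unfold snD pfD
  rw [← add_div, pow_add]
  obtain ⟨z, hz⟩ : ∃ z : ℝ, z = (T : ℝ) * ((64 * L : ℕ) : ℝ) ^ T +
    T * (2 * ((64 * L : ℕ) : ℝ) ^ 2) ^ T := ⟨_, rfl⟩
  rw [← hz] at h3' ⊢
  have ha : (0 : ℝ) < 2 ^ a := by positivity
  have hq : (0 : ℝ) < 2 ^ (26 * L * (T + 1)) := by positivity
  have e1 : 3 * 2 ^ a * (z / (2 ^ a * 2 ^ (26 * L * (T + 1)))) = 3 * z / 2 ^ (26 * L * (T + 1)) := by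
    field_simp
  rw [e1, div_le_iff₀ hq]
  linarith

end Pool.Agent.H2.AC
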