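import Pool.Agent.H58.OVT.Switch

/-! Common decision trees of a family of functions. -/

set_option autoImplicit false
set_option maxHeartbeats 4000000

namespace Pool.Agent.H2.AC

open Pool.Agent.H58.OVAC Pool.Agent.H58.OVPR Pool.Agent.H58.OVT

section pd

variable {V Y Z Γ Δ : Type} [DecidableEq V]

/-- There is a common decision tree of depth at most `m` at all of whose leaves all functions are
computed by decision trees of depth at most `l`. -/
def Pd (l : ℕ) : ℕ → (Γ → (V → Bool) → Y) → Prop
  | 0, F => ∀ g, Dt l (F g)
  | m + 1, F => (∀ g, Dt l (F g)) ∨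
      ∃ i : V, ∀ b : Bool, Pd l m fun g σ => F g (Function.update σ i b)

/-- The same with depth less than `m`. -/
def Plt (l : ℕ) : ℕ → (Γ → (V → Bool) → Y) → Prop
  | 0, _ => False
  | m + 1, F => Pd l m F

theorem Pd.of_all {l m : ℕ} {F : Γ → (V → Bool) → Y} (h : ∀ g, Dt l (F g)) : Pd l m F := by
  cases m with
  | zero => exact h
  | succ m => exact Or.inl h

theorem Pd.succ {l m : ℕ} : ∀ {F : Γ → (V → Bool) → Y}, Pd l m F → Pd l (m + 1) F := by
  induction m with
  | zero => exact fun h => Or.inl h
  | succ m ih =>
    intro F h
    rcases h with h | ⟨i, hi⟩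
    · exact Or.inl h
    · exact Or.inr ⟨i, fun b => ih (hi b)⟩

theorem Pd.mono {l m m' : ℕ} (h : m ≤ m') {F : Γ → (V → Bool) → Y} (hF : Pd l m F) :
    Pd l m' F := by
  induction h with
  | refl => exact hF
  | step _ ih => exact ih.succ

theorem Pd.mono_left {l l' m : ℕ} (h : l ≤ l') : ∀ {F : Γ → (V → Bool) → Y} (_ : Pd l m F),
    Pd l' m F := by
  induction m with
  | zero => exact fun hF g => (hF g).mono h
  | succ m ih =>
    intro F hF
    rcases hF with hF | ⟨i, hi⟩
    · exact Or.inl fun g => (hF g).mono h
    · exact Or.inr ⟨i, fun b => ih (hi b)⟩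

/-- Functions of the family. -/
theorem Pd.comp {l m : ℕ} (e : Δ → Γ) (c : Δ → Y → Z) : ∀ {F : Γ → (V → Bool) → Y} (_ : Pd l m F),
    Pd l m fun d σ => c d (F (e d) σ) := by
  induction m with
  | zero => exact fun hF d => (hF (e d)).comp (c d)
  | succ m ih =>
    intro F hF
    rcases hF with hF | ⟨i, hi⟩
    · exact Or.inl fun d => (hF (e d)).comp (c d)
    · exact Or.inr ⟨i, fun b => ih (hi b)⟩

theorem Pd.fix {l m : ℕ} : ∀ {F : Γ → (V → Bool) → Y} (_ : Pd l m F) (i : V) (b : Bool),
    Pd l m fun g σ => F g (Function.update σ i b) := by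
  induction m with
  | zero => exact fun hF i b g => (hF g).fix i b
  | succ m ih =>
    intro F hF i b
    rcases hF with hF | ⟨k, hk⟩
    · exact Or.inl fun g => (hF g).fix i b
    · by_cases hki : k = i
      · subst hki
        exact (hk b).succ
      · refine Or.inr ⟨k, fun b' => ?_⟩
        have h1 := ih (hk b') i b
        have h2 : (fun g (σ : V → Bool) => F g (Function.update (Function.update σ k b') i b)) =
            fun g σ => F g (Function.update (Function.update σ i b) k b') := by
          funext g σ
          rw [Function.update_comm hki]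
        show Pd l m fun g (σ : V → Bool) => F g (Function.update (Function.update σ k b') i b)
        rw [h2]
        exact h1

theorem Pd.restr {l m N : ℕ} (ω : V → Fin N × Bool) (j : Fin N) :
    ∀ {F : Γ → (V → Bool) → Y} (_ : Pd l m F), Pd l m fun g => restr ω j (F g) := by
  induction m with
  | zero => exact fun hF g => (hF g).restr ω j
  | succ m ih =>
    intro F hF
    rcases hF with hF | ⟨k, hk⟩
    · exact Or.inl fun g => (hF g).restr ω j
    · by_cases hkj : (ω k).1 = j
      · refine Or.inr ⟨k, fun b => ?_⟩
        have h1 := ih (hk b)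
        refine (congrArg (Pd l m) ?_).mp h1
        funext g σ
        unfold Pool.Agent.H58.OVAC.restr
        beta_reduce
        congr 1
        funext i
        by_cases hik : i = k
        · subst hik
          simp [hkj]
        · simp [Function.update_of_ne hik]
      · have h1 := ih (hk (ω k).2)
        refine Pd.succ ((congrArg (Pd l m) ?_).mp h1)
        funext g σ
        unfold Pool.Agent.H58.OVAC.restr
        beta_reduce
        congr 1
        funext i
        by_cases hik : i = k
        · subst hik
          simp [hkj]
        · simp [Function.update_of_ne hik]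

/-- Query a set of coordinates. -/
theorem Pd.query {l m : ℕ} (J : Finset V) : ∀ {F : Γ → (V → Bool) → Y}
    (_ : ∀ τ : V → Bool, Pd l m fun g σ => F g (mix J τ σ)), Pd l (m + J.card) F := by
  induction J using Finset.induction_on with
  | empty =>
    intro F h
    have h1 := h fun _ => false
    have h2 : (fun g σ => F g (mix ∅ (fun _ => false) σ)) = F := by
      funext g σ
      congr 1
    rw [h2] at h1
    simpa using h1
  | insert i J hi ih =>
    intro F h
    rw [Finset.card_insert_of_notMem hi, ← Nat.add_assoc]
    refine Or.inr ⟨i, fun b => ?_⟩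
    refine ih (F := fun g σ => F g (Function.update σ i b)) fun τ => ?_
    have h1 := h (Function.update τ i b)
    refine (congrArg (Pd l m) ?_).mp h1
    funext g σ
    congr 1
    funext k
    unfold mix
    by_cases hki : k = i
    · subst hki
      simp
    · by_cases hkJ : k ∈ J
      · simp [hki, hkJ]
      · simp [hki, hkJ]

/-- One function of the family. -/
theorem Pd.dt {l m : ℕ} : ∀ {F : Γ → (V → Bool) → Y} (_ : Pd l m F) (g : Γ),
    Dt (m + l) (F g) := by
  induction m with
  | zero =>
    intro F hF g
    rw [Nat.zero_add]
    exact hF g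
  | succ m ih =>
    intro F hF g
    rcases hF with hF | ⟨i, hi⟩
    · exact (hF g).mono (by omega)
    · have h1 : m + 1 + l = (m + l) + 1 := by omega
      rw [h1]
      exact Or.inr ⟨i, fun b => ih (hi b) g⟩

end pd

end Pool.Agent.H2.AC
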