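import Pool.Agent.H2.AC.Blk

/-! The sensitivity of one gate for a circuit of `T` layers. -/

set_option autoImplicit false
set_option maxHeartbeats 4000000

namespace Pool.Agent.H2.AC

open Pool.Agent.H58.OVAC Pool.Agent.H58.OVPR Pool.Agent.H58.OVT Pool.Agent.H58.CD Pool.Agent.H58.CE

/-- A common tree of depth `m` with leaves of depth `l` gives trees of depth `l + m`. -/
theorem dt_of_pd {V Y Γ : Type} [DecidableEq V] {l m : ℕ} (g : Γ) :
    ∀ {F : Γ → (V → Bool) → Y} (_ : Pd l m F), Dt (l + m) (F g) := by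
  induction m with
  | zero => exact fun hF => hF g
  | succ m ih =>
    intro F hF
    rcases hF with hF | ⟨i, hi⟩
    · exact (hF g).mono (by omega)
    · exact Or.inr ⟨i, fun b => ih (hi b)⟩

/-- The bound for the sensitivity: `r` layers are left, `M` is the depth of the common tree. -/
def snB (l r M K : ℕ) : ℕ := (64 * l) ^ r * (2 ^ r * (M + K) + l)

/-- The bound for the tail. -/
noncomputable def snD (l r K : ℕ) : ℝ := r * ((64 * l : ℕ) : ℝ) ^ r / 2 ^ K

theorem snB_succ (l r M K : ℕ) : 64 * l * snB l r (2 * M + K) K = snB l (r + 1) M K := by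
  unfold snB
  ring

theorem snD_nonneg (l r K : ℕ) : 0 ≤ snD l r K := by
  unfold snD
  positivity

theorem snD_succ {l : ℕ} (hl : 1 ≤ l) (r K : ℕ) :
    ((64 * l : ℕ) : ℝ) * (snD l r K + 1 / 2 ^ K) ≤ snD l (r + 1) K := by
  unfold snD
  have h0 : (1 : ℝ) ≤ ((64 * l : ℕ) : ℝ) := by exact_mod_cast (by omega : 1 ≤ 64 * l)
  obtain ⟨x, hx⟩ : ∃ x : ℝ, x = ((64 * l : ℕ) : ℝ) := ⟨_, rfl⟩
  rw [← hx] at h0 ⊢
  have h2 : (1 : ℝ) ≤ x ^ r := one_le_pow₀ h0
  rw [← add_div, ← mul_div_assoc]
  apply div_le_div_of_nonneg_right _ (by positivity)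
  push_cast
  calc x * (r * x ^ r + 1) ≤ x * (r * x ^ r + x ^ r) := by
        apply mul_le_mul_of_nonneg_left _ (by linarith)
        linarith
    _ = (r + 1) * x ^ (r + 1) := by ring

/-- **The sensitivity of one gate.** `t` layers are already known to have a common tree of depth
`M`, `r` layers are left. -/
theorem net_sn {ι V : Type} [Fintype ι] [Fintype V] [DecidableEq V] {s T l K : ℕ} (hl : 1 ≤ l)
    (hs : s ≤ 2 ^ (l + 1)) (o : Fin s) (r : ℕ) :
    ∀ (t M : ℕ) (N : Net ι (V → Bool) s T), t + r = T → (∀ i, Dt l (N.inp i)) →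
      Pd l M (lay N t) →
      pr (fun σ : V → Bool => snB l r M K < sens (N.first o) σ) ≤ snD l r K := by
  classical
  induction r with
  | zero =>
    intro t M N ht hin hM
    have ht' : t = T := by omega
    subst ht'
    rw [lay_top] at hM
    rw [pr_eq_zero]
    · exact snD_nonneg _ _ _
    · intro σ hσ
      have h1 := sens_le_of_dt (dt_of_pd o hM) σ
      unfold snB at hσ
      rw [pow_zero, pow_zero, one_mul, one_mul] at hσ
      omega
  | succ r ih =>
    intro t M N ht hin hM
    have hN1 : 1 ≤ 64 * l := by omega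
    have hN2 : 2 ≤ 64 * l := by omega
    rw [← snB_succ]
    refine (sens_part hN1 (N.first o) (snB l r (2 * M + K) K)
      (δ := snD l r K + 1 / 2 ^ K) ?_).trans (snD_succ hl r K)
    intro j
    have hne : Nonempty (Fin (64 * l) × Bool) := ⟨(j, true)⟩
    have h1 := round (V := V) (Γ := Fin s) (Δ := Fin s) (m := M + K) j hN2 (α := 1 / 4)
      (by norm_num) (by norm_num) (numc hl) (by rw [Fintype.card_fin]; exact hs) M N.inp (lay N t)
      (lay N (t + 1)) (by
        intro φ hφ' hφ d
        exact lay_list (N.comp φ) (l := l) hφ' t hφ d) hin hM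
    have h2 : pr (fun ω : V → Fin (64 * l) × Bool =>
        ¬ Pd l (M + (M + K)) fun d => restr ω j (lay N (t + 1) d)) ≤ 1 / 2 ^ K := by
      refine h1.trans (le_of_le_of_eq (b := (2 : ℝ) ^ M * (1 / 2) ^ (M + K)) ?_ ?_)
      · apply mul_le_mul_of_nonneg_left _ (by positivity)
        have e1 : (2 * (1 / 4) : ℝ) = 1 / 2 := by norm_num
        rw [e1]
        exact pow_le_pow_of_le_one (by norm_num) (by norm_num) (Nat.le_succ _)
      · rw [pow_add, ← mul_assoc, ← mul_pow]
        norm_num
        rw [one_div, inv_pow]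
    have h3 : ∀ ω : V → Fin (64 * l) × Bool,
        (pr fun σ : V → Bool => snB l r (2 * M + K) K < sens (restr ω j (N.first o)) σ) ≤
        snD l r K + (if ¬ Pd l (M + (M + K)) (fun d => restr ω j (lay N (t + 1) d)) then
          (1 : ℝ) else 0) := by
      intro ω
      by_cases hω : Pd l (M + (M + K)) fun d => restr ω j (lay N (t + 1) d)
      · rw [if_neg (not_not.2 hω), add_zero]
        have h4 : M + (M + K) = 2 * M + K := by ring
        rw [h4] at hω
        exact ih (t + 1) (2 * M + K)
          (N.comp fun (τ : V → Bool) (i : V) => if (ω i).1 = j then τ i else (ω i).2) (by omega)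
          (fun i => (hin i).restr ω j) hω
      · rw [if_pos hω]
        have h4 := snD_nonneg l r K
        have h5 := pr_le_one (fun σ : V → Bool =>
          snB l r (2 * M + K) K < sens (restr ω j (N.first o)) σ)
        linarith
    refine (av_mono h3).trans ?_
    rw [av_add, av_const]
    refine add_le_add_right ?_ _
    refine le_trans (le_of_eq ?_) h2
    unfold pr
    exact av_congr fun ω => by congr

/-- The sensitivity of one gate on a cube whose inputs depend on one coordinate each. -/
theorem net_sn_zero {ι V : Type} [Fintype ι] [Fintype V] [DecidableEq V] {s T l K : ℕ}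
    (hl : 1 ≤ l) (hs : s ≤ 2 ^ (l + 1)) (o : Fin s) (N : Net ι (V → Bool) s T)
    (hin : ∀ i, Dt 1 (N.inp i)) :
    pr (fun σ : V → Bool => snB l T 0 K < sens (N.first o) σ) ≤ snD l T K := by
  refine net_sn hl hs o T 0 0 N (Nat.zero_add T) (fun i => (hin i).mono hl) ?_
  intro g
  refine Dt.of_const fun σ τ => ?_
  unfold lay
  rw [if_neg (Nat.not_lt_zero _), if_neg (Nat.not_lt_zero _)]

private theorem sn_flip {K Y : Type} [Fintype K] (f : (K → Bool) → Y) (σ : K → Bool) :
    sens (fun ρ => f (fun κ => xor (ρ κ) (σ κ))) (fun _ => false) = sens f σ := by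
  classical
  unfold sens
  congr 1
  ext i
  rw [Finset.mem_filter, Finset.mem_filter]
  simp only [blk_flip, blk_zero]

/-- **The sensitivity of one gate in blocks**, for random inputs: the number of blocks whose
replacement by the values of `y'` changes the gate. -/
theorem net_sn_blk {ι V κ X : Type} [Fintype ι] [Fintype V] [DecidableEq V] [Fintype κ]
    [DecidableEq κ] [Fintype X] [Nonempty X] {s T l K : ℕ} (hl : 1 ≤ l) (hs : s ≤ 2 ^ (l + 1))
    (N : Net ι (V → X) s T) (hin : ∀ i, DepOne (N.inp i)) (blk : V → κ)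
    (F : Finset V) (o : Fin s) :
    (av fun y : V → X => pr fun y' : V → X => snB l T 0 K <
      sens (fun ρ : κ → Bool => N.first o (bpt blk F y y' ρ)) (fun _ => false)) ≤ snD l T K := by
  classical
  exact blk_aux blk F (fun x => N.first o x) (fun f σ => snB l T 0 K < sens f σ)
    (fun f σ => by rw [sn_flip f σ])
    fun y y' => net_sn_zero hl hs o (N.comp (bpt blk F y y')) fun i => blk_dt (hin i) blk F y y'

end Pool.Agent.H2.AC
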